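import Pool.Agent.H629R2.HT.Stubs

/-!
# AUE: Auerbach parallelotope
-/

set_option autoImplicit false

namespace Pool.Agent.H629R2.HT

open MeasureTheory Set Matrix

theorem aue_isCompact_df {n : ℕ} {K : Set (Fin n → ℝ)} (hK : IsCompact K) :
    IsCompact (df K) := by
  have h : df K = (fun p : (Fin n → ℝ) × (Fin n → ℝ) => p.1 - p.2) '' (K ×ˢ K) := by
    ext x
    constructor
    · rintro ⟨y, hy, z, hz, rfl⟩
      exact ⟨(y, z), ⟨hy, hz⟩, rfl⟩
    · rintro ⟨⟨y, z⟩, ⟨hy, hz⟩, rfl⟩
      exact ⟨y, hy, z, hz, rfl⟩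
  rw [h]
  exact (hK.prod hK).image (by fun_prop)

theorem S_aue_proof : S_aue := by
  intro K hK
  have hDc : IsCompact (df K) := aue_isCompact_df hK.comp
  -- a small cross in `df K`
  obtain ⟨x, hx⟩ := hK.int
  obtain ⟨r, hr, hball⟩ := Metric.isOpen_iff.mp isOpen_interior x hx
  have hcross : ∀ i : Fin 3, (Pi.single i (r / 2) : Fin 3 → ℝ) ∈ df K := by
    intro i
    refine ⟨x + Pi.single i (r / 2), interior_subset (hball ?_), x, interior_subset hx, by simp⟩
    rw [Metric.mem_ball, dist_eq_norm, add_sub_cancel_left]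
    rw [Pi.norm_single]
    rw [Real.norm_of_nonneg (by linarith)]
    linarith
  have hKne : K.Nonempty := ⟨x, interior_subset hx⟩
  -- maximise the determinant
  have hWc : IsCompact (Set.pi Set.univ (fun _ : Fin 3 => df K)) :=
    isCompact_univ_pi (fun _ => hDc)
  have hFc : Continuous (fun w : Fin 3 → (Fin 3 → ℝ) => |(Matrix.of w).det|) := by
    apply Continuous.abs
    apply Continuous.matrix_det
    exact continuous_id
  obtain ⟨w, hw, hmax⟩ := hWc.exists_isMaxOn
    ⟨fun i => Pi.single i (r / 2), fun i _ => hcross i⟩ hFc.continuousOn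
  have hw' : ∀ i, w i ∈ df K := fun i => hw i (mem_univ i)
  set A : Matrix (Fin 3) (Fin 3) ℝ := (Matrix.of w)ᵀ with hA
  have hdetA : A.det = (Matrix.of w).det := Matrix.det_transpose _
  have hpos : 0 < |A.det| := by
    have h1 := hmax (a := fun i => Pi.single i (r / 2)) (fun i _ => hcross i)
    simp only [mem_setOf_eq] at h1
    rw [hdetA]
    refine lt_of_lt_of_le ?_ h1
    have h2 : (Matrix.of (fun i : Fin 3 => (Pi.single i (r / 2) : Fin 3 → ℝ)))
        = Matrix.diagonal (fun _ => r / 2) := by
      ext i j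
      simp only [Matrix.of_apply, Matrix.diagonal_apply, Pi.single_apply]
      by_cases h : i = j
      · simp [h]
      · have h' : ¬ j = i := fun e => h e.symm
        simp [h, h']
    rw [h2, Matrix.det_diagonal]
    simp only [Finset.prod_const, Finset.card_univ, Fintype.card_fin]
    have : 0 < (r / 2) ^ 3 := by positivity
    exact abs_pos.mpr this.ne'
  have hne : A.det ≠ 0 := abs_pos.mp hpos
  -- coordinates
  set al : (Fin 3 → ℝ) →ₗ[ℝ] (Fin 3 → ℝ) := (A.det)⁻¹ • Matrix.cramer A with hal
  have hal1 : ∀ d ∈ df K, ∀ i, |al d i| ≤ 1 := by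
    intro d hd i
    have h1 : Function.update w i d ∈ Set.pi Set.univ (fun _ : Fin 3 => df K) := by
      intro j _
      by_cases h : j = i
      · subst h; simpa using hd
      · rw [Function.update_of_ne h]; exact hw' j
    have h2 := hmax h1
    simp only [mem_setOf_eq] at h2
    have h3 : Matrix.cramer A d i = (Matrix.of (Function.update w i d)).det := by
      rw [Matrix.cramer_apply, ← Matrix.det_transpose]
      congr 1
      rw [hA, Matrix.updateCol_transpose, Matrix.transpose_transpose]
      rfl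
    rw [hal, LinearMap.smul_apply, Pi.smul_apply, smul_eq_mul, h3, abs_mul, abs_inv,
      inv_mul_le_iff₀ hpos, mul_one, hdetA]
    exact h2
  have hal2 : ∀ y : Fin 3 → ℝ, ∑ i, al y i • w i = y := by
    intro y
    have h1 : A *ᵥ (Matrix.cramer A y) = A.det • y := Matrix.mulVec_cramer A y
    funext j
    have h2 := congrFun h1 j
    simp only [Matrix.mulVec, dotProduct, Pi.smul_apply, smul_eq_mul] at h2
    simp only [Finset.sum_apply, Pi.smul_apply, smul_eq_mul, hal, LinearMap.smul_apply]
    have h3 : ∀ i, A j i = w i j := fun i => rfl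
    simp only [h3] at h2
    calc ∑ i, (A.det)⁻¹ * Matrix.cramer A y i * w i j
        = (A.det)⁻¹ * ∑ i, w i j * Matrix.cramer A y i := by
          rw [Finset.mul_sum]
          exact Finset.sum_congr rfl fun i _ => by ring
      _ = y j := by rw [h2]; field_simp
  refine ⟨w, ?_, ?_⟩
  · intro i
    obtain ⟨y, hy, z, hz, h⟩ := hw' i
    exact ⟨z, hz, by rw [h]; simpa using hy⟩
  · have hcont : ∀ i, Continuous (fun y => al y i) := by
      intro i
      have : Continuous al := LinearMap.continuous_of_finiteDimensional al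
      exact (continuous_apply i).comp this
    have hex : ∀ i, ∃ z ∈ K, ∀ y ∈ K, al y i ≤ al z i := by
      intro i
      obtain ⟨z, hz, hm⟩ := hK.comp.exists_isMaxOn hKne (hcont i).continuousOn
      exact ⟨z, hz, fun y hy => hm hy⟩
    choose z hz hzm using hex
    refine ⟨- ∑ i, al (z i) i • w i, ?_⟩
    intro y hy
    refine ⟨fun i => al (z i) i - al y i, ?_, ?_⟩
    · intro i
      refine ⟨sub_nonneg.mpr (hzm i y hy), ?_⟩
      have h1 := hal1 (z i - y) ⟨z i, hz i, y, hy, rfl⟩ i
      rw [map_sub, Pi.sub_apply] at h1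
      exact (abs_le.mp h1).2
    · have h1 : ∑ i, (al (z i) i - al y i) • w i = ∑ i, al (z i) i • w i - y := by
        simp only [sub_smul, Finset.sum_sub_distrib]
        rw [hal2 y]
      rw [h1]
      abel

end Pool.Agent.H629R2.HT
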