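import Pool.Agent.H629R2.Tr.Low

/-!
# Project HT3: minimal translative convex hull volumes in dimension three. Definitions.
-/

set_option autoImplicit false

namespace Pool.Agent.H629R2.HT

open MeasureTheory Set Matrix

/-- convex bodies -/
structure CB {n : ℕ} (K : Set (Fin n → ℝ)) : Prop where
  comp : IsCompact K
  conv : Convex ℝ K
  int : (interior K).Nonempty

/-- real valued volume -/
noncomputable def V {n : ℕ} (K : Set (Fin n → ℝ)) : ℝ := (volume K).toReal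

/-- `K + b L` -/
def ms {n : ℕ} (K L : Set (Fin n → ℝ)) (b : ℝ) : Set (Fin n → ℝ) :=
  {x | ∃ y ∈ K, ∃ z ∈ L, x = y + b • z}

/-- `-K` -/
def ng {n : ℕ} (K : Set (Fin n → ℝ)) : Set (Fin n → ℝ) := {x | -x ∈ K}

/-- `K - K` -/
def df {n : ℕ} (K : Set (Fin n → ℝ)) : Set (Fin n → ℝ) := {x | ∃ y ∈ K, ∃ z ∈ K, x = y - z}

/-- the polar set -/
def po {n : ℕ} (K : Set (Fin n → ℝ)) : Set (Fin n → ℝ) := {y | ∀ x ∈ K, x ⬝ᵥ y ≤ 1}

/-- the standard simplex with vertices `0, e_0, e_1, e_2` -/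
def Sx : Set (Fin 3 → ℝ) := {x | (∀ i, 0 ≤ x i) ∧ ∑ i, x i ≤ 1}

end Pool.Agent.H629R2.HT
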