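import Pool.Agent.H629R2.HT.Main

/-!
# Project HT3: the normed volumes
-/

set_option autoImplicit false

namespace Pool.Agent.H629R2.HT

open MeasureTheory Set Matrix Pool.Agent.H629R2.Tr
open scoped Pointwise

theorem df_eq {n : ℕ} (K : Set (Fin n → ℝ)) : K - K = df K := by
  ext x
  rw [Set.mem_sub]
  constructor
  · rintro ⟨y, hy, z, hz, rfl⟩
    exact ⟨y, hy, z, hz, rfl⟩
  · rintro ⟨y, hy, z, hz, rfl⟩
    exact ⟨y, hy, z, hz, rfl⟩

theorem isCompact_dfK {n : ℕ} {K : Set (Fin n → ℝ)} (hK : CB K) : IsCompact (df K) := by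
  rw [← ms_one_ng]
  exact isCompact_ms hK.comp (CB_ng hK).comp 1

theorem ofReal_V {n : ℕ} {A : Set (Fin n → ℝ)} (h : volume A ≠ ⊤) : ENNReal.ofReal (V A) = volume A :=
  ENNReal.ofReal_toReal h

theorem vol_relBall {K : Set (Fin 3 → ℝ)} (hK : CB K) :
    volume ((1 / 2 : ℝ) • (K - K)) = ENNReal.ofReal (V (df K) / 8) := by
  rw [Measure.addHaar_smul, df_eq, ← ofReal_V (isCompact_dfK hK).measure_lt_top.ne,
    ← ENNReal.ofReal_mul (by positivity)]
  congr 1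
  simp only [Module.finrank_fintype_fun_eq_card, Fintype.card_fin]
  rw [abs_of_pos (by positivity)]
  ring

theorem V_df_pos {K : Set (Fin 3 → ℝ)} (hK : CB K) : 0 < V (df K) := by
  obtain ⟨z, hz⟩ := CB_ne hK
  have h1 : (fun x => -z + x) '' K ⊆ df K := by
    rintro _ ⟨x, hx, rfl⟩
    exact ⟨x, hx, z, hz, by ring⟩
  have h2 := V_mono (isCompact_dfK hK) h1
  rw [V_vadd] at h2
  exact (V_pos hK).trans_le h2

theorem hull_eq {K : Set (Fin 3 → ℝ)} (hK : CB K) (p : Fin 3 → ℝ) :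
    convexHull ℝ (K ∪ (p +ᵥ K)) = seg K p := hull_eq_seg hK.conv p

theorem nonempty_iff {n : ℕ} {K : Set (Fin n → ℝ)} (p : Fin n → ℝ) :
    ((p +ᵥ K) ∩ K).Nonempty ↔ ∃ z ∈ K, z + p ∈ K := by
  constructor
  · rintro ⟨_, ⟨z, hz, rfl⟩, h⟩
    exact ⟨z, hz, by rwa [add_comm]⟩
  · rintro ⟨z, hz, h⟩
    exact ⟨p + z, ⟨z, hz, rfl⟩, by rwa [add_comm]⟩

/-- the Busemann volume -/
theorem bus_eq {K : Set (Fin 3 → ℝ)} (hK : CB K) {S : Set (Fin 3 → ℝ)} (hS : IsCompact S) :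
    volume (Metric.closedBall (0 : EuclideanSpace ℝ (Fin 3)) 1) /
      volume ((1 / 2 : ℝ) • (K - K)) * volume S =
      ENNReal.ofReal (32 * Real.pi / 3 * (V S / V (df K))) := by
  have h0 := V_df_pos hK
  rw [vol_relBall hK, EuclideanSpace.volume_closedBall_fin_three, ENNReal.ofReal_one, one_pow,
    one_mul, ← ENNReal.ofReal_div_of_pos (by positivity), ← ofReal_V hS.measure_lt_top.ne,
    ← ENNReal.ofReal_mul (by positivity)]
  congr 1
  field_simp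
  ring

/-- the Holmes–Thompson volume -/
theorem ht_eq {K : Set (Fin 3 → ℝ)} (hp : volume (po (df K)) ≠ ⊤) {S : Set (Fin 3 → ℝ)}
    (hS : IsCompact S) :
    volume {y : Fin 3 → ℝ | ∀ x ∈ (1 / 2 : ℝ) • (K - K), x ⬝ᵥ y ≤ 1} /
      volume (Metric.closedBall (0 : EuclideanSpace ℝ (Fin 3)) 1) * volume S =
      ENNReal.ofReal (6 / Real.pi * (V (po (df K)) * V S)) := by
  have h1 : {y : Fin 3 → ℝ | ∀ x ∈ (1 / 2 : ℝ) • (K - K), x ⬝ᵥ y ≤ 1} = (2 : ℝ) • po (df K) := by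
    ext y
    constructor
    · intro hy
      refine ⟨(1 / 2 : ℝ) • y, fun x hx => ?_, ?_⟩
      · have := hy ((1 / 2 : ℝ) • x) ⟨x, by rwa [df_eq], rfl⟩
        rwa [dotProduct_smul, ← smul_dotProduct]
      · show (2 : ℝ) • ((1 / 2 : ℝ) • y) = y
        rw [smul_smul]; norm_num
    · rintro ⟨z, hz, rfl⟩ _ ⟨x, hx, rfl⟩
      rw [df_eq] at hx
      have := hz x hx
      show ((1 / 2 : ℝ) • x) ⬝ᵥ ((2 : ℝ) • z) ≤ 1
      rw [dotProduct_smul, smul_dotProduct, smul_smul]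
      norm_num
      exact this
  have hpi := Real.pi_pos
  rw [h1, Measure.addHaar_smul, EuclideanSpace.volume_closedBall_fin_three, ENNReal.ofReal_one,
    one_pow, one_mul, ← ofReal_V hS.measure_lt_top.ne, ← ofReal_V hp,
    ← ENNReal.ofReal_mul (by positivity), ← ENNReal.ofReal_div_of_pos (by positivity),
    ← ENNReal.ofReal_mul (by
      have := V_nonneg (po (df K))
      positivity)]
  congr 1
  simp only [Module.finrank_fintype_fun_eq_card, Fintype.card_fin]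
  rw [abs_of_pos (by positivity)]
  field_simp
  ring

theorem seg_le {K : Set (Fin 3 → ℝ)} (hK : CB K) {p : Fin 3 → ℝ} (hp : ∃ z ∈ K, z + p ∈ K) :
    V (seg K p) ≤ 4 * V K := by
  obtain ⟨z, hz, hzp⟩ := hp
  have h := vol_seg_le (n := 2) hK.conv hK.comp p z hz hzp
  rw [← ofReal_V (isCompact_seg hK.comp p).measure_lt_top.ne,
    ← ofReal_V hK.comp.measure_lt_top.ne, ← ENNReal.ofReal_mul (by positivity),
    ENNReal.ofReal_le_ofReal_iff (mul_nonneg (by positivity) (V_nonneg K))] at h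
  norm_num at h
  exact h

theorem bus_final_lower (hpoly : S_poly) (hseg : S_seg3) (haue : S_aue) (hneg : S_neg3)
    {K : Set (Fin 3 → ℝ)} (hK : CB K) :
    ∃ p : Fin 3 → ℝ, ((p +ᵥ K) ∩ K).Nonempty ∧ ENNReal.ofReal (32 * Real.pi / 15) ≤
      volume (Metric.closedBall (0 : EuclideanSpace ℝ (Fin 3)) 1) /
        volume ((1 / 2 : ℝ) • (K - K)) * volume (convexHull ℝ (K ∪ (p +ᵥ K))) := by
  obtain ⟨w, hw, h⟩ := bus_lower hpoly hseg haue hneg hK
  refine ⟨w, (nonempty_iff w).2 hw, ?_⟩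
  rw [hull_eq hK, bus_eq hK (isCompact_seg hK.comp w)]
  apply ENNReal.ofReal_le_ofReal
  have h0 := V_df_pos hK
  have hpi := Real.pi_pos
  have h1 : 1 / 5 ≤ V (seg K w) / V (df K) := by
    rw [le_div_iff₀ h0]
    linarith
  calc 32 * Real.pi / 15 = 32 * Real.pi / 3 * (1 / 5) := by ring
    _ ≤ _ := mul_le_mul_of_nonneg_left h1 (by positivity)

theorem bus_final_upper (hsimp : S_simp) {p : Fin 3 → ℝ} (hp : ((p +ᵥ Sx) ∩ Sx).Nonempty) :
    volume (Metric.closedBall (0 : EuclideanSpace ℝ (Fin 3)) 1) /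
        volume ((1 / 2 : ℝ) • (Sx - Sx)) * volume (convexHull ℝ (Sx ∪ (p +ᵥ Sx))) ≤
      ENNReal.ofReal (32 * Real.pi / 15) := by
  obtain ⟨hK, h1, h2, -⟩ := hsimp
  rw [hull_eq hK, bus_eq hK (isCompact_seg hK.comp p)]
  apply ENNReal.ofReal_le_ofReal
  have h0 := V_df_pos hK
  have hpi := Real.pi_pos
  have h3 := seg_le hK ((nonempty_iff p).1 hp)
  have h4 : V (seg Sx p) / V (df Sx) ≤ 1 / 5 := by
    rw [div_le_iff₀ h0]
    linarith
  calc _ ≤ 32 * Real.pi / 3 * (1 / 5) := mul_le_mul_of_nonneg_left h4 (by positivity)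
    _ = _ := by ring

theorem po_ne_top {K S : Set (Fin 3 → ℝ)} (h : 8 / 3 ≤ V (po (df K)) * V S) :
    volume (po (df K)) ≠ ⊤ := by
  intro h1
  unfold V at h
  rw [h1] at h
  norm_num at h

theorem ht_final_lower (hpoly : S_poly) (hseg : S_seg3) (haue : S_aue) (hmah : S_mah)
    {K : Set (Fin 3 → ℝ)} (hK : CB K) :
    ∃ p : Fin 3 → ℝ, ((p +ᵥ K) ∩ K).Nonempty ∧ ENNReal.ofReal (16 / Real.pi) ≤
      volume {y : Fin 3 → ℝ | ∀ x ∈ (1 / 2 : ℝ) • (K - K), x ⬝ᵥ y ≤ 1} /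
        volume (Metric.closedBall (0 : EuclideanSpace ℝ (Fin 3)) 1) *
        volume (convexHull ℝ (K ∪ (p +ᵥ K))) := by
  obtain ⟨w, hw, h⟩ := ht_lower hpoly hseg haue hmah hK
  refine ⟨w, (nonempty_iff w).2 hw, ?_⟩
  rw [hull_eq hK, ht_eq (po_ne_top h) (isCompact_seg hK.comp w)]
  apply ENNReal.ofReal_le_ofReal
  have hpi := Real.pi_pos
  calc 16 / Real.pi = 6 / Real.pi * (8 / 3) := by ring
    _ ≤ _ := mul_le_mul_of_nonneg_left h (by positivity)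

theorem ht_final_upper (hpoly : S_poly) (hseg : S_seg3) (haue : S_aue) (hmah : S_mah)
    (hsimp : S_simp) {p : Fin 3 → ℝ} (hp : ((p +ᵥ Sx) ∩ Sx).Nonempty) :
    volume {y : Fin 3 → ℝ | ∀ x ∈ (1 / 2 : ℝ) • (Sx - Sx), x ⬝ᵥ y ≤ 1} /
        volume (Metric.closedBall (0 : EuclideanSpace ℝ (Fin 3)) 1) *
        volume (convexHull ℝ (Sx ∪ (p +ᵥ Sx))) ≤ ENNReal.ofReal (16 / Real.pi) := by
  obtain ⟨hK, h1, -, h2⟩ := hsimp
  obtain ⟨w, -, h⟩ := ht_lower hpoly hseg haue hmah hK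
  rw [hull_eq hK, ht_eq (po_ne_top h) (isCompact_seg hK.comp p)]
  apply ENNReal.ofReal_le_ofReal
  have hpi := Real.pi_pos
  have h3 := seg_le hK ((nonempty_iff p).1 hp)
  have h4 : V (po (df Sx)) * V (seg Sx p) ≤ 4 * (2 / 3) :=
    mul_le_mul h2 (by linarith) (V_nonneg _) (by norm_num)
  calc _ ≤ 6 / Real.pi * (4 * (2 / 3)) := mul_le_mul_of_nonneg_left h4 (by positivity)
    _ = _ := by ring

end Pool.Agent.H629R2.HT
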