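import Pool.Agent.H629R2.HT.Stubs

/-!
# GRAD: the log-Laplace transform of a convex body

Adapted from helper845's files `Pool.Agent.H845R2.LL1` --`LL5` (the symmetry of the body is not needed).
-/

set_option autoImplicit false
set_option linter.unusedSectionVars false

namespace Pool.Agent.H629R2.HT

open Finset MeasureTheory Matrix

namespace Grad

variable {n : ℕ}

/-- exponential integrals -/
noncomputable def J (K : Set (Fin n → ℝ)) (w : (Fin n → ℝ) → ℝ) (a : Fin n → ℝ) : ℝ :=
  ∫ x in K, w x * Real.exp (a ⬝ᵥ x)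

/-- tilted averages -/
noncomputable def q (K : Set (Fin n → ℝ)) (w : (Fin n → ℝ) → ℝ) (a : Fin n → ℝ) : ℝ :=
  J K w a / J K (fun _ => 1) a

/-- tilted barycentre -/
noncomputable def bar (K : Set (Fin n → ℝ)) (a : Fin n → ℝ) : Fin n → ℝ := fun k => q K (fun x => x k) a

/-- covariance matrix of the tilted measure -/
noncomputable def Hm (K : Set (Fin n → ℝ)) (a : Fin n → ℝ) : Matrix (Fin n) (Fin n) ℝ := Matrix.of fun l k =>
  q K (fun x => x l * x k) a - q K (fun x => x k) a * q K (fun x => x l) a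

/-- third order terms -/
noncomputable def Tm (K : Set (Fin n → ℝ)) (l j k : Fin n) (a : Fin n → ℝ) : ℝ :=
  (q K (fun x => x l * (x j * x k)) a - q K (fun x => x j * x k) a * q K (fun x => x l) a)
    - (q K (fun x => x k) a * (q K (fun x => x l * x j) a - q K (fun x => x j) a * q K (fun x => x l) a)
      + q K (fun x => x j) a * (q K (fun x => x l * x k) a - q K (fun x => x k) a * q K (fun x => x l) a))

variable {K : Set (Fin n → ℝ)} (hK : CB K)
include hK

lemma meas : MeasurableSet K := hK.comp.measurableSet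

lemma vol_lt : volume K < ⊤ := hK.comp.measure_lt_top

lemma vol_pos : 0 < volume K :=
  (isOpen_interior.measure_pos volume hK.int).trans_le (measure_mono interior_subset)

lemma exists_R : ∃ R : ℝ, 1 ≤ R ∧ ∀ x ∈ K, ‖x‖ ≤ R := by
  obtain ⟨R, hR⟩ := hK.comp.isBounded.exists_norm_le
  exact ⟨max R 1, le_max_right _ _, fun x hx => (hR x hx).trans (le_max_left _ _)⟩

lemma integrableOn_of_continuous (g : (Fin n → ℝ) → ℝ) (hg : Continuous g) : IntegrableOn g K :=
  hg.continuousOn.integrableOn_compact hK.comp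

lemma continuous_integrand (w : (Fin n → ℝ) → ℝ) (hw : Continuous w) (a : Fin n → ℝ) :
    Continuous (fun x => w x * Real.exp (a ⬝ᵥ x)) := by
  have : Continuous (fun x : Fin n → ℝ => a ⬝ᵥ x) := by
    unfold dotProduct; fun_prop
  fun_prop

lemma hasFDerivAt_J (w : (Fin n → ℝ) → ℝ) (hw : Continuous w) (a : Fin n → ℝ) :
    HasFDerivAt (J K w) (∑ j, J K (fun x => x j * w x) a •
      ContinuousLinearMap.proj (R := ℝ) (φ := fun _ : Fin n => ℝ) j) a := by
  obtain ⟨R, hR1, hR⟩ := (exists_R hK)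
  have hN : (0:ℝ) ≤ (Fintype.card (Fin n)) := by positivity
  -- the derivative of the integrand
  let L : (Fin n → ℝ) → ((Fin n → ℝ) →L[ℝ] ℝ) := fun x =>
    ∑ j, x j • ContinuousLinearMap.proj (R := ℝ) (φ := fun _ : Fin n => ℝ) j
  have hL : ∀ x a, L x a = a ⬝ᵥ x := by
    intro x a
    simp [L, dotProduct, mul_comm]
  have hLc : Continuous L := by
    refine continuous_finsetSum _ fun j _ => ?_
    exact (continuous_apply j).smul continuous_const
  have hd : ∀ x b, HasFDerivAt (fun b : Fin n → ℝ => w x * Real.exp (b ⬝ᵥ x))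
      ((w x * Real.exp (b ⬝ᵥ x)) • L x) b := by
    intro x b
    have h1 : HasFDerivAt (fun b : Fin n → ℝ => b ⬝ᵥ x) (L x) b := by
      have h0 := (L x).hasFDerivAt (x := b)
      have h00 : (fun b : Fin n → ℝ => b ⬝ᵥ x) = ⇑(L x) := by
        funext b
        exact (hL x b).symm
      rw [h00]
      exact h0
    have h2 := (h1.exp).const_mul (w x)
    refine h2.congr_fderiv ?_
    rw [smul_smul]
  have hmain := hasFDerivAt_integral_of_dominated_of_fderiv_le (μ := volume.restrict K) (𝕜 := ℝ)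
    (F := fun (b : Fin n → ℝ) x => w x * Real.exp (b ⬝ᵥ x))
    (F' := fun (b : Fin n → ℝ) x => (w x * Real.exp (b ⬝ᵥ x)) • L x) (x₀ := a)
    (bound := fun x => |w x| * Real.exp ((Fintype.card (Fin n)) * ((‖a‖ + 1) * R)) * ‖L x‖)
    (s := Metric.ball a 1) (Metric.ball_mem_nhds a one_pos)
    (Filter.Eventually.of_forall fun b => ((continuous_integrand hK) w hw b).aestronglyMeasurable)
    ((integrableOn_of_continuous hK) _ ((continuous_integrand hK) w hw a))
    ((((continuous_integrand hK) w hw a).smul hLc).aestronglyMeasurable)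
    (by
      refine (ae_restrict_iff' (meas hK)).2 (Filter.Eventually.of_forall fun x hx b hb => ?_)
      rw [norm_smul, norm_mul, Real.norm_eq_abs, Real.norm_of_nonneg (Real.exp_pos _).le]
      have hb1 : ‖b‖ ≤ ‖a‖ + 1 := by
        have := mem_ball_iff_norm.1 hb
        calc ‖b‖ = ‖a + (b - a)‖ := by congr 1; abel
          _ ≤ ‖a‖ + ‖b - a‖ := norm_add_le _ _
          _ ≤ ‖a‖ + 1 := by linarith
      have h1 : b ⬝ᵥ x ≤ (Fintype.card (Fin n)) * ((‖a‖ + 1) * R) := by
        unfold dotProduct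
        refine (Finset.sum_le_card_nsmul _ _ ((‖a‖ + 1) * R) fun j _ => ?_).trans (by simp)
        have h2 := norm_le_pi_norm b j
        have h3 := norm_le_pi_norm x j
        rw [Real.norm_eq_abs] at h2 h3
        calc b j * x j ≤ |b j * x j| := le_abs_self _
          _ = |b j| * |x j| := abs_mul _ _
          _ ≤ (‖a‖ + 1) * R := mul_le_mul (h2.trans hb1) (h3.trans (hR x hx)) (abs_nonneg _) (by positivity)
      gcongr)
    ((integrableOn_of_continuous hK) _ (by fun_prop))
    (Filter.Eventually.of_forall fun x b _ => hd x b)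
  have hint : ∫ x in K, (w x * Real.exp (a ⬝ᵥ x)) • L x = ∑ j, J K (fun x => x j * w x) a •
      ContinuousLinearMap.proj (R := ℝ) (φ := fun _ : Fin n => ℝ) j := by
    have h1 : ∀ x : Fin n → ℝ, (w x * Real.exp (a ⬝ᵥ x)) • L x =
        ∑ j, (x j * w x * Real.exp (a ⬝ᵥ x)) • ContinuousLinearMap.proj (R := ℝ) (φ := fun _ : Fin n => ℝ) j := by
      intro x
      simp only [L, Finset.smul_sum, smul_smul]
      refine Finset.sum_congr rfl fun j _ => ?_
      congr 1
      ring
    simp_rw [h1]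
    rw [integral_finsetSum]
    · refine Finset.sum_congr rfl fun j _ => ?_
      rw [integral_smul_const]
      rfl
    · intro j _
      refine Integrable.smul_const ?_ _
      exact (integrableOn_of_continuous hK) _
        ((continuous_integrand hK) (fun x => x j * w x) ((continuous_apply j).mul hw) a)
  rw [hint] at hmain
  exact hmain

lemma Z_pos (a : Fin n → ℝ) : 0 < J K (fun _ => 1) a := by
  unfold J
  have h1 : IntegrableOn (fun x : Fin n → ℝ => 1 * Real.exp (a ⬝ᵥ x)) K :=
    (integrableOn_of_continuous hK) _ ((continuous_integrand hK) (fun _ => 1) continuous_const a)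
  rw [setIntegral_pos_iff_support_of_nonneg_ae]
  · have : Function.support (fun x : Fin n → ℝ => 1 * Real.exp (a ⬝ᵥ x)) ∩ K = K := by
      ext x
      simp
    rw [this]
    exact (vol_pos hK)
  · exact Filter.Eventually.of_forall fun x => by positivity
  · exact h1

lemma hasFDerivAt_q (w : (Fin n → ℝ) → ℝ) (hw : Continuous w) (a : Fin n → ℝ) :
    HasFDerivAt (q K w) (∑ l, (q K (fun x => x l * w x) a - q K w a * q K (fun x => x l) a) •
      ContinuousLinearMap.proj (R := ℝ) (φ := fun _ : Fin n => ℝ) l) a := by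
  have hZ := (Z_pos hK) a
  have h1 := (hasFDerivAt_J hK) w hw a
  have h2 := (hasFDerivAt_J hK) (fun _ => 1) continuous_const a
  have h3 := h1.mul ((hasDerivAt_inv hZ.ne').comp_hasFDerivAt a h2)
  have h4 : q K w = fun a => J K w a * (J K (fun _ => 1) a)⁻¹ := by
    funext b
    unfold q
    rw [div_eq_mul_inv]
  rw [h4]
  refine h3.congr_fderiv ?_
  ext p
  simp only [_root_.add_apply, _root_.smul_apply, _root_.sum_apply, smul_eq_mul, ContinuousLinearMap.proj_apply,
    Finset.mul_sum, ← Finset.sum_add_distrib, Function.comp]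
  refine Finset.sum_congr rfl fun l _ => ?_
  unfold q
  simp only [mul_one]
  field_simp
  ring

lemma integrable_w (w : (Fin n → ℝ) → ℝ) (hw : Continuous w) (a : Fin n → ℝ) :
    IntegrableOn (fun x => w x * Real.exp (a ⬝ᵥ x)) K :=
  (integrableOn_of_continuous hK) _ ((continuous_integrand hK) w hw a)

lemma J_mono (w w' : (Fin n → ℝ) → ℝ) (hw : Continuous w) (hw' : Continuous w') (a : Fin n → ℝ)
    (h : ∀ x ∈ K, w x ≤ w' x) : J K w a ≤ J K w' a := by
  unfold J
  refine setIntegral_mono_on ((integrable_w hK) w hw a) ((integrable_w hK) w' hw' a) (meas hK) fun x hx => ?_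
  exact mul_le_mul_of_nonneg_right (h x hx) (Real.exp_pos _).le

lemma q_mono (w w' : (Fin n → ℝ) → ℝ) (hw : Continuous w) (hw' : Continuous w') (a : Fin n → ℝ)
    (h : ∀ x ∈ K, w x ≤ w' x) : q K w a ≤ q K w' a :=
  div_le_div_of_nonneg_right ((J_mono hK) w w' hw hw' a h) ((Z_pos hK) a).le

lemma q_const (c : ℝ) (a : Fin n → ℝ) : q K (fun _ => c) a = c := by
  have hZ := (Z_pos hK) a
  have : J K (fun _ => c) a = c * J K (fun _ => 1) a := by
    unfold J
    rw [← integral_const_mul]
    simp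
  unfold q
  rw [this, mul_div_assoc, div_self hZ.ne', mul_one]

lemma q_add (w w' : (Fin n → ℝ) → ℝ) (hw : Continuous w) (hw' : Continuous w') (a : Fin n → ℝ) :
    q K (fun x => w x + w' x) a = q K w a + q K w' a := by
  unfold q
  rw [← add_div]
  congr 1
  unfold J
  rw [← integral_add ((integrable_w hK) w hw a) ((integrable_w hK) w' hw' a)]
  congr 1
  funext x
  ring

lemma q_smul (c : ℝ) (w : (Fin n → ℝ) → ℝ) (a : Fin n → ℝ) :
    q K (fun x => c * w x) a = c * q K w a := by
  unfold q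
  rw [← mul_div_assoc]
  congr 1
  unfold J
  rw [← integral_const_mul]
  congr 1
  funext x
  ring

lemma q_sum {κ : Type*} (s : Finset κ) (w : κ → (Fin n → ℝ) → ℝ) (hw : ∀ k, Continuous (w k)) (a : Fin n → ℝ) :
    q K (fun x => ∑ k ∈ s, w k x) a = ∑ k ∈ s, q K (w k) a := by
  classical
  induction s using Finset.induction_on with
  | empty => simp [(q_const hK)]
  | insert k s hk ih =>
    simp_rw [Finset.sum_insert hk]
    rw [(q_add hK) _ _ (hw k) (continuous_finsetSum _ fun k _ => hw k), ih]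

lemma q_abs_le (w : (Fin n → ℝ) → ℝ) (hw : Continuous w) (B : ℝ) (hB : ∀ x ∈ K, |w x| ≤ B) (a : Fin n → ℝ) :
    |q K w a| ≤ B := by
  rw [abs_le]
  constructor
  · have := (q_mono hK) (fun _ => -B) w continuous_const hw a fun x hx => (abs_le.1 (hB x hx)).1
    rwa [(q_const hK)] at this
  · have := (q_mono hK) w (fun _ => B) hw continuous_const a fun x hx => (abs_le.1 (hB x hx)).2
    rwa [(q_const hK)] at this

lemma dot_bar (u a : Fin n → ℝ) : u ⬝ᵥ bar K a = q K (fun x => u ⬝ᵥ x) a := by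
  unfold dotProduct bar
  rw [(q_sum hK) _ _ (fun k => by fun_prop)]
  refine Finset.sum_congr rfl fun k _ => ?_
  rw [(q_smul hK)]

lemma cont_dot (u : Fin n → ℝ) : Continuous (fun x : Fin n → ℝ => u ⬝ᵥ x) := by
  unfold dotProduct; fun_prop

/-- the tilted barycentre lies in `K` -/
lemma bar_mem (a : Fin n → ℝ) : bar K a ∈ K := by
  by_contra hn
  obtain ⟨f, u, hu1, hu2⟩ := geometric_hahn_banach_closed_point hK.conv hK.comp.isClosed hn
  -- represent `f` by a vector
  set c : Fin n → ℝ := fun k => f (Pi.single k 1) with hc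
  have hf : ∀ x : Fin n → ℝ, f x = c ⬝ᵥ x := by
    intro x
    conv_lhs => rw [← LinearMap.sum_single_apply (fun _ : Fin n => ℝ) x]
    rw [map_sum]
    unfold dotProduct
    refine Finset.sum_congr rfl fun k _ => ?_
    rw [hc]
    have : (LinearMap.single ℝ (fun _ : Fin n => ℝ) k (x k) : Fin n → ℝ) = x k • Pi.single k 1 := by
      funext i
      by_cases h : i = k
      · subst h; simp
      · simp [Pi.single_eq_of_ne h]
    simp only [LinearMap.coe_single] at this
    rw [this, map_smul, smul_eq_mul, mul_comm]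
  rw [hf, (dot_bar hK)] at hu2
  have h3 := (q_mono hK) (fun x => c ⬝ᵥ x) (fun _ => u) ((cont_dot hK) c) continuous_const a
    (fun x hx => by have := hu1 x hx; rw [hf] at this; exact this.le)
  rw [(q_const hK)] at h3
  linarith

/-- a nonnegative continuous function, positive somewhere inside, has positive integral -/
lemma integral_pos_of (g : (Fin n → ℝ) → ℝ) (hg : Continuous g) (h0 : ∀ x, 0 ≤ g x)
    (x₁ : Fin n → ℝ) (h1 : x₁ ∈ interior K) (h2 : 0 < g x₁) : 0 < ∫ x in K, g x := by
  rw [setIntegral_pos_iff_support_of_nonneg_ae (Filter.Eventually.of_forall h0)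
    ((integrableOn_of_continuous hK) g hg)]
  have ho : IsOpen ({x | 0 < g x} ∩ interior K) := (isOpen_lt continuous_const hg).inter isOpen_interior
  refine (ho.measure_pos volume ⟨x₁, h2, h1⟩).trans_le (measure_mono ?_)
  intro x hx
  exact ⟨(hx.1 : 0 < g x).ne', interior_subset hx.2⟩

lemma exists_interior_ne (u : Fin n → ℝ) (hu : u ≠ 0) (m : ℝ) : ∃ x ∈ interior K, u ⬝ᵥ x ≠ m := by
  obtain ⟨x, hx⟩ := hK.int
  by_cases h : u ⬝ᵥ x = m
  · have hc : Filter.Tendsto (fun ε : ℝ => x + ε • u) (nhds 0) (nhds x) := by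
      have : Continuous (fun ε : ℝ => x + ε • u) := by fun_prop
      have h2 := this.tendsto 0
      simpa using h2
    have h3 := hc.eventually (isOpen_interior.mem_nhds hx)
    obtain ⟨δ, hδ, h4⟩ := Metric.eventually_nhds_iff.1 h3
    refine ⟨x + (δ / 2) • u, h4 (by rw [dist_zero_right, Real.norm_of_nonneg (by linarith)]; linarith), ?_⟩
    rw [dotProduct_add, h, dotProduct_smul, smul_eq_mul]
    have h5 : 0 < u ⬝ᵥ u := by
      have h6 : 0 ≤ u ⬝ᵥ u := Finset.sum_nonneg fun i _ => mul_self_nonneg _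
      refine lt_of_le_of_ne h6 fun h7 => hu (dotProduct_self_eq_zero.1 h7.symm)
    have : 0 < δ / 2 * (u ⬝ᵥ u) := by positivity
    linarith
  · exact ⟨x, hx, h⟩

/-- strict monotonicity of the tilted barycentre -/
lemma bar_strictMono (a a' : Fin n → ℝ) (h : a ≠ a') : (a - a') ⬝ᵥ bar K a' < (a - a') ⬝ᵥ bar K a := by
  set u := a - a' with hu
  have hu0 : u ≠ 0 := sub_ne_zero.2 h
  set m := u ⬝ᵥ bar K a' with hm
  have hZ := (Z_pos hK) a
  have hZ' := (Z_pos hK) a'
  have hcu := (cont_dot hK) u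
  -- key integral
  have hg : Continuous (fun x : Fin n → ℝ => (u ⬝ᵥ x - m) * (Real.exp (u ⬝ᵥ x) - Real.exp m) * Real.exp (a' ⬝ᵥ x)) := by
    have := (cont_dot hK) a'
    fun_prop
  have h0 : ∀ x : Fin n → ℝ, 0 ≤ (u ⬝ᵥ x - m) * (Real.exp (u ⬝ᵥ x) - Real.exp m) * Real.exp (a' ⬝ᵥ x) := by
    intro x
    refine mul_nonneg ?_ (Real.exp_pos _).le
    rcases le_total (u ⬝ᵥ x) m with h1 | h1
    · exact mul_nonneg_of_nonpos_of_nonpos (by linarith) (by linarith [Real.exp_le_exp.2 h1])
    · exact mul_nonneg (by linarith) (by linarith [Real.exp_le_exp.2 h1])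
  obtain ⟨x₁, hx₁, hne⟩ := (exists_interior_ne hK) u hu0 m
  have h2 : 0 < (u ⬝ᵥ x₁ - m) * (Real.exp (u ⬝ᵥ x₁) - Real.exp m) * Real.exp (a' ⬝ᵥ x₁) := by
    refine mul_pos ?_ (Real.exp_pos _)
    rcases lt_or_gt_of_ne hne with h1 | h1
    · exact mul_pos_of_neg_of_neg (by linarith) (by linarith [Real.exp_lt_exp.2 h1])
    · exact mul_pos (by linarith) (by linarith [Real.exp_lt_exp.2 h1])
  have h3 := (integral_pos_of hK) _ hg h0 x₁ hx₁ h2
  have h4 : ∫ x in K, (u ⬝ᵥ x - m) * (Real.exp (u ⬝ᵥ x) - Real.exp m) * Real.exp (a' ⬝ᵥ x) =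
      (J K (fun x => u ⬝ᵥ x) a - m * J K (fun _ => 1) a)
        - Real.exp m * (J K (fun x => u ⬝ᵥ x) a' - m * J K (fun _ => 1) a') := by
    unfold J
    rw [← integral_const_mul, ← integral_const_mul, ← integral_sub, ← integral_sub, ← integral_const_mul,
      ← integral_sub]
    · congr 1
      funext x
      have : Real.exp (a ⬝ᵥ x) = Real.exp (u ⬝ᵥ x) * Real.exp (a' ⬝ᵥ x) := by
        rw [← Real.exp_add, ← add_dotProduct]
        congr 2
        rw [hu]; abel
      rw [this]
      ring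
    · exact ((integrable_w hK) _ hcu a).sub (((integrable_w hK) (fun _ => 1) continuous_const a).const_mul _)
    · exact (((integrable_w hK) _ hcu a').sub
        (((integrable_w hK) (fun _ => 1) continuous_const a').const_mul _)).const_mul _
    · exact (integrable_w hK) _ hcu a'
    · exact ((integrable_w hK) (fun _ => 1) continuous_const a').const_mul _
    · exact (integrable_w hK) _ hcu a
    · exact ((integrable_w hK) (fun _ => 1) continuous_const a).const_mul _
  have h5 : J K (fun x => u ⬝ᵥ x) a' - m * J K (fun _ => 1) a' = 0 := by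
    rw [hm, (dot_bar hK)]
    unfold q
    rw [div_mul_cancel₀ _ hZ'.ne', sub_self]
  rw [h4, h5, mul_zero, sub_zero] at h3
  rw [(dot_bar hK) u a]
  unfold q
  rw [lt_div_iff₀ hZ]
  linarith

lemma hasFDerivAt_bar_apply (k : Fin n) (a : Fin n → ℝ) : HasFDerivAt (fun a => bar K a k)
    (∑ l, Hm K a l k • ContinuousLinearMap.proj (R := ℝ) (φ := fun _ : Fin n => ℝ) l) a :=
  (hasFDerivAt_q hK) (fun x => x k) (continuous_apply k) a

lemma hasFDerivAt_Hm (j k : Fin n) (a : Fin n → ℝ) : HasFDerivAt (fun a => Hm K a j k)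
    (∑ l, Tm K l j k a • ContinuousLinearMap.proj (R := ℝ) (φ := fun _ : Fin n => ℝ) l) a := by
  have h1 := (hasFDerivAt_q hK) (fun x => x j * x k) ((continuous_apply j).mul (continuous_apply k)) a
  have h2 := (hasFDerivAt_q hK) (fun x => x k) (continuous_apply k) a
  have h3 := (hasFDerivAt_q hK) (fun x => x j) (continuous_apply j) a
  have h4 := h1.sub (h2.mul h3)
  refine h4.congr_fderiv ?_
  ext p
  simp only [_root_.add_apply, _root_.smul_apply, _root_.sum_apply, _root_.sub_apply, smul_eq_mul,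
    ContinuousLinearMap.proj_apply, Finset.mul_sum, ← Finset.sum_add_distrib,
    ← Finset.sum_sub_distrib]
  refine Finset.sum_congr rfl fun l _ => ?_
  unfold Tm
  ring


/-- derivative of the barycentre map -/
lemma hasFDerivAt_bar (a : Fin n → ℝ) : HasFDerivAt (bar K)
    (LinearMap.toContinuousLinearMap (Matrix.toLin' (Hm K a))) a := by
  rw [hasFDerivAt_pi']
  intro k
  refine (hasFDerivAt_bar_apply hK k a).congr_fderiv ?_
  ext p
  simp only [_root_.sum_apply, _root_.smul_apply, ContinuousLinearMap.proj_apply, smul_eq_mul,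
    ContinuousLinearMap.comp_apply, LinearMap.coe_toContinuousLinearMap', Matrix.toLin'_apply,
    Matrix.mulVec, dotProduct]
  refine Finset.sum_congr rfl fun l _ => ?_
  congr 1
  unfold Hm
  simp only [Matrix.of_apply]
  have : (fun x : Fin n → ℝ => x l * x k) = fun x => x k * x l := by
    funext x; ring
  rw [this]
  ring

lemma continuous_Hm : Continuous (Hm K) := by
  refine continuous_pi fun j => continuous_pi fun k => ?_
  exact continuous_iff_continuousAt.2 fun a => (hasFDerivAt_Hm hK j k a).continuousAt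

lemma hasFDerivAt_psi (a : Fin n → ℝ) : HasFDerivAt (fun a => Real.log (J K (fun _ => 1) a))
    (LinearMap.toContinuousLinearMap (dotProductBilin ℝ ℝ (bar K a))) a := by
  have hZ := Z_pos hK a
  refine ((hasFDerivAt_J hK (fun _ => 1) continuous_const a).log hZ.ne').congr_fderiv ?_
  ext p
  simp only [_root_.sum_apply, _root_.smul_apply, ContinuousLinearMap.proj_apply, smul_eq_mul,
    LinearMap.coe_toContinuousLinearMap', dotProductBilin_apply_apply, dotProduct, Finset.mul_sum]
  refine Finset.sum_congr rfl fun l _ => ?_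
  unfold bar q
  simp only [mul_one]
  field_simp

lemma Hm_psd (a u : Fin n → ℝ) : 0 ≤ u ⬝ᵥ (Hm K a *ᵥ u) := by
  set m := q K (fun x => u ⬝ᵥ x) a with hm
  have hcu := cont_dot hK u
  have h1 : 0 ≤ q K (fun x => (u ⬝ᵥ x) * (u ⬝ᵥ x) + ((-2 * m) * (u ⬝ᵥ x) + m ^ 2)) a := by
    have := q_mono hK (fun _ => 0) (fun x => (u ⬝ᵥ x) * (u ⬝ᵥ x) + ((-2 * m) * (u ⬝ᵥ x) + m ^ 2))
      continuous_const (by fun_prop) a (fun x _ => by nlinarith [sq_nonneg (u ⬝ᵥ x - m)])
    rwa [q_const hK] at this
  rw [q_add hK _ _ (by fun_prop) (by fun_prop), q_add hK _ _ (by fun_prop) (by fun_prop),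
    q_smul hK, q_const hK, ← hm] at h1
  have h2 : q K (fun x => (u ⬝ᵥ x) * (u ⬝ᵥ x)) a
      = ∑ l, ∑ k, u l * (u k * q K (fun x => x l * x k) a) := by
    have e : (fun x : Fin n → ℝ => (u ⬝ᵥ x) * (u ⬝ᵥ x))
        = fun x => ∑ l, ∑ k, (u l * u k) * (x l * x k) := by
      funext x
      unfold dotProduct
      rw [Finset.sum_mul_sum]
      refine Finset.sum_congr rfl fun l _ => Finset.sum_congr rfl fun k _ => ?_
      ring
    rw [e, q_sum hK _ _ (fun l => by fun_prop)]
    refine Finset.sum_congr rfl fun l _ => ?_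
    rw [q_sum hK _ _ (fun k => by fun_prop)]
    refine Finset.sum_congr rfl fun k _ => ?_
    rw [q_smul hK]
    ring
  have h3 : m = ∑ l, u l * q K (fun x => x l) a := by
    rw [hm, ← dot_bar hK]
    rfl
  have h4 : u ⬝ᵥ (Hm K a *ᵥ u) = q K (fun x => (u ⬝ᵥ x) * (u ⬝ᵥ x)) a - m * m := by
    rw [h2, h3, Finset.sum_mul_sum, ← Finset.sum_sub_distrib]
    unfold dotProduct Matrix.mulVec
    refine Finset.sum_congr rfl fun l _ => ?_
    rw [← Finset.sum_sub_distrib]
    unfold dotProduct
    rw [Finset.mul_sum]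
    refine Finset.sum_congr rfl fun k _ => ?_
    unfold Hm
    simp only [Matrix.of_apply]
    ring
  rw [h4]
  nlinarith

lemma Hm_symm (a : Fin n → ℝ) : (Hm K a)ᵀ = Hm K a := by
  ext l k
  rw [Matrix.transpose_apply]
  unfold Hm
  simp only [Matrix.of_apply]
  have : (fun x : Fin n → ℝ => x k * x l) = fun x => x l * x k := by
    funext x; ring
  rw [this]
  ring

lemma dot_abs_le (R : ℝ) (hR : ∀ x ∈ K, ‖x‖ ≤ R) (a x : Fin n → ℝ) (hx : x ∈ K) :
    |a ⬝ᵥ x| ≤ n * R * ‖a‖ := by
  unfold dotProduct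
  refine (Finset.abs_sum_le_sum_abs _ _).trans ?_
  refine (Finset.sum_le_card_nsmul _ _ (R * ‖a‖) fun j _ => ?_).trans ?_
  · have h2 := norm_le_pi_norm a j
    have h3 := norm_le_pi_norm x j
    rw [Real.norm_eq_abs] at h2 h3
    rw [abs_mul, mul_comm]
    exact mul_le_mul (h3.trans (hR x hx)) h2 (abs_nonneg _) ((norm_nonneg _).trans (hR x hx))
  · simp only [Finset.card_univ, Fintype.card_fin, nsmul_eq_mul]
    rw [mul_assoc]

/-- lower bound of the exponential integral -/
lemma Z_lower (R : ℝ) (hR : ∀ x ∈ K, ‖x‖ ≤ R) (s : ℝ) (hs : 0 < s) (hs1 : s ≤ 1)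
    (a x₀ : Fin n → ℝ) (hx : x₀ ∈ K) :
    s ^ n * (Real.exp (a ⬝ᵥ x₀ - s * (2 * (n * R * ‖a‖))) * (volume K).toReal)
      ≤ J K (fun _ => 1) a := by
  have hmeas := meas hK
  set g : (Fin n → ℝ) → ℝ := K.indicator (fun x => 1 * Real.exp (a ⬝ᵥ x)) with hg
  set y₀ : Fin n → ℝ := ((1 - s) / s) • x₀ with hy₀
  have h1 : J K (fun _ => 1) a = ∫ x, g x := by
    rw [hg, integral_indicator hmeas]
    rfl
  have h2 : ∫ x, g x = s ^ n * ∫ x, g (s • (y₀ + x)) := by
    have e1 : ∫ x, g (s • (y₀ + x)) = ∫ x, g (s • x) :=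
      integral_add_left_eq_self (fun x => g (s • x)) y₀
    rw [e1, Measure.integral_comp_smul]
    rw [Module.finrank_pi, Fintype.card_fin, smul_eq_mul, ← mul_assoc, abs_of_pos (by positivity),
      mul_inv_cancel₀ (by positivity), one_mul]
  rw [h1, h2]
  refine mul_le_mul_of_nonneg_left ?_ (by positivity)
  have hgi : Integrable g := by
    rw [hg, integrable_indicator_iff hmeas]
    exact integrable_w hK (fun _ => 1) continuous_const a
  have h3 : ∫ x in K, Real.exp (a ⬝ᵥ x₀ - s * (2 * (n * R * ‖a‖))) ≤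
      ∫ x, g (s • (y₀ + x)) := by
    rw [← integral_indicator hmeas]
    refine integral_mono_of_nonneg (Filter.Eventually.of_forall fun x => ?_) ?_
      (Filter.Eventually.of_forall fun x => ?_)
    · exact Set.indicator_nonneg (fun x _ => by positivity) x
    · have h4 : Integrable (fun x => g (s • x)) := hgi.comp_smul hs.ne'
      exact h4.comp_add_left y₀
    · by_cases hxK : x ∈ K
      · simp only [Set.indicator_of_mem hxK]
        have e2 : s • (y₀ + x) = (1 - s) • x₀ + s • x := by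
          rw [hy₀, smul_add, smul_smul]
          congr 2
          field_simp
        have hm : s • (y₀ + x) ∈ K := by
          rw [e2]
          exact hK.conv hx hxK (by linarith) hs.le (by ring)
        simp only [hg, Set.indicator_of_mem hm]
        rw [one_mul]
        apply Real.exp_le_exp.2
        rw [e2, dotProduct_add, dotProduct_smul, dotProduct_smul, smul_eq_mul, smul_eq_mul]
        have b1 := dot_abs_le hK R hR a x₀ hx
        have b2 := dot_abs_le hK R hR a x hxK
        have b3 := (abs_le.1 b1).2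
        have b4 := (abs_le.1 b2).1
        nlinarith
      · simp only [Set.indicator_of_notMem hxK]
        exact Set.indicator_nonneg (fun x _ => by positivity) _
  refine le_trans (le_of_eq ?_) h3
  rw [setIntegral_const, smul_eq_mul, mul_comm]
  rfl

lemma last (ε : ℝ) (hε : 0 < ε) : ∃ C : ℝ, ∀ a, ∀ x ∈ K,
    a ⬝ᵥ x ≤ Real.log (J K (fun _ => 1) a) + ε * ‖a‖ + C := by
  obtain ⟨R, hR1, hR⟩ := exists_R hK
  have hV : 0 < (volume K).toReal := ENNReal.toReal_pos (vol_pos hK).ne' (vol_lt hK).ne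
  have hn : (0 : ℝ) ≤ n := by positivity
  set s : ℝ := min 1 (ε / (2 * (n * R) + 1)) with hs
  have hden : 0 < 2 * (n * R) + 1 := by positivity
  have hs0 : 0 < s := lt_min one_pos (div_pos hε hden)
  have hs1 : s ≤ 1 := min_le_left _ _
  have hs2 : s * (2 * (n * R)) ≤ ε := by
    have h1 : s ≤ ε / (2 * (n * R) + 1) := min_le_right _ _
    have h2 : s * (2 * (n * R) + 1) ≤ ε := (le_div_iff₀ hden).1 h1
    nlinarith
  refine ⟨-(Real.log (s ^ n * (volume K).toReal)), fun a x hx => ?_⟩
  have h1 := Z_lower hK R hR s hs0 hs1 a x hx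
  have h2 : s ^ n * (Real.exp (a ⬝ᵥ x - s * (2 * (n * R * ‖a‖))) * (volume K).toReal)
      = Real.exp (a ⬝ᵥ x - s * (2 * (n * R * ‖a‖))) * (s ^ n * (volume K).toReal) := by ring
  rw [h2] at h1
  have h3 := Real.log_le_log (by positivity) h1
  rw [Real.log_mul (by positivity) (by positivity), Real.log_exp] at h3
  have h4 : s * (2 * (n * R * ‖a‖)) ≤ ε * ‖a‖ := by
    have : s * (2 * (n * R * ‖a‖)) = (s * (2 * (n * R))) * ‖a‖ := by ring
    rw [this]
    exact mul_le_mul_of_nonneg_right hs2 (norm_nonneg _)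
  linarith

end Grad

theorem S_grad_proof : S_grad := by
  intro n K hK
  exact ⟨fun a => Real.log (Grad.J K (fun _ => 1) a), Grad.bar K, Grad.Hm K, Grad.bar_mem hK,
    Grad.Hm_psd hK, Grad.Hm_symm hK, Grad.continuous_Hm hK, Grad.hasFDerivAt_bar hK,
    Grad.hasFDerivAt_psi hK, Grad.bar_strictMono hK, Grad.last hK⟩

end Pool.Agent.H629R2.HT
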