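import Pool.Agent.H629R2.HT.Stubs

/-!
# Project HT3: the two inequalities between real volumes
-/

set_option autoImplicit false

namespace Pool.Agent.H629R2.HT

open MeasureTheory Set Matrix Pool.Agent.H629R2.Tr
open scoped Pointwise

/-! ### Elementary facts -/

theorem isCompact_ms {n : ℕ} {K L : Set (Fin n → ℝ)} (hK : IsCompact K) (hL : IsCompact L) (b : ℝ) :
    IsCompact (ms K L b) := by
  have h1 : ms K L b = (fun q : (Fin n → ℝ) × (Fin n → ℝ) => q.1 + b • q.2) '' (K ×ˢ L) := by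
    ext x
    constructor
    · rintro ⟨y, hy, z, hz, rfl⟩
      exact ⟨(y, z), ⟨hy, hz⟩, rfl⟩
    · rintro ⟨⟨y, z⟩, ⟨hy, hz⟩, rfl⟩
      exact ⟨y, hy, z, hz, rfl⟩
  rw [h1]
  exact (hK.prod hL).image (by fun_prop)

theorem V_mono {n : ℕ} {A B : Set (Fin n → ℝ)} (hB : IsCompact B) (h : A ⊆ B) : V A ≤ V B :=
  ENNReal.toReal_mono hB.measure_lt_top.ne (measure_mono h)

theorem V_nonneg {n : ℕ} (A : Set (Fin n → ℝ)) : 0 ≤ V A := ENNReal.toReal_nonneg

theorem V_vadd {n : ℕ} (p : Fin n → ℝ) (A : Set (Fin n → ℝ)) : V ((fun x => p + x) '' A) = V A := by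
  unfold V
  congr 1
  rw [image_add_left]
  exact measure_preimage_add volume (-p) A

theorem V_smul {n : ℕ} (c : ℝ) (A : Set (Fin n → ℝ)) :
    V ((fun x => c • x) '' A) = |c| ^ n * V A := by
  unfold V
  have h1 : (fun x : Fin n → ℝ => c • x) '' A = c • A := rfl
  rw [h1, Measure.addHaar_smul]
  simp only [Module.finrank_fintype_fun_eq_card, Fintype.card_fin, ENNReal.toReal_mul]
  rw [ENNReal.toReal_ofReal (abs_nonneg _), abs_pow]

theorem V_pos {n : ℕ} {K : Set (Fin n → ℝ)} (hK : CB K) : 0 < V K :=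
  ENNReal.toReal_pos (Measure.measure_pos_of_nonempty_interior volume hK.int).ne'
    hK.comp.measure_lt_top.ne

theorem ng_eq {n : ℕ} (K : Set (Fin n → ℝ)) : ng K = (fun x => -x) '' K := by
  ext x
  constructor
  · intro hx
    exact ⟨-x, hx, by simp⟩
  · rintro ⟨y, hy, rfl⟩
    show - -y ∈ K
    rwa [neg_neg]

theorem CB_ng {n : ℕ} {K : Set (Fin n → ℝ)} (hK : CB K) : CB (ng K) := by
  refine ⟨?_, ?_, ?_⟩
  · rw [ng_eq]; exact hK.comp.image continuous_neg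
  · intro x hx y hy a b ha hb hab
    show -(a • x + b • y) ∈ K
    have : -(a • x + b • y) = a • (-x) + b • (-y) := by simp only [smul_neg, neg_add]
    rw [this]
    exact hK.conv hx hy ha hb hab
  · obtain ⟨x, hx⟩ := hK.int
    refine ⟨-x, ?_⟩
    rw [mem_interior]
    refine ⟨{y | -y ∈ interior K}, fun y hy => (show -y ∈ K from interior_subset (show -y ∈ interior K from hy)), ?_, ?_⟩
    · exact isOpen_interior.preimage continuous_neg
    · show - -x ∈ interior K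
      rwa [neg_neg]

theorem CB_ne {n : ℕ} {K : Set (Fin n → ℝ)} (hK : CB K) : K.Nonempty := hK.int.mono interior_subset

theorem ms_zero {n : ℕ} {K L : Set (Fin n → ℝ)} (hL : L.Nonempty) : ms K L 0 = K := by
  ext x
  constructor
  · rintro ⟨y, hy, z, hz, rfl⟩
    simpa using hy
  · intro hx
    obtain ⟨z, hz⟩ := hL
    exact ⟨x, hx, z, hz, by simp⟩

theorem ms_one_ng {n : ℕ} (K : Set (Fin n → ℝ)) : ms K (ng K) 1 = df K := by
  ext x
  constructor
  · rintro ⟨y, hy, z, hz, rfl⟩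
    exact ⟨y, hy, -z, hz, by simp⟩
  · rintro ⟨y, hy, z, hz, rfl⟩
    refine ⟨y, hy, -z, ?_, by simp [sub_eq_add_neg]⟩
    show - -z ∈ K
    rwa [neg_neg]

/-- `K - b K = - b (K - b⁻¹ K)` -/
theorem V_ms_inv {K : Set (Fin 3 → ℝ)} (b : ℝ) (hb : 0 < b) :
    V (ms K (ng K) b) = b ^ 3 * V (ms K (ng K) b⁻¹) := by
  have h1 : ms K (ng K) b = (fun x => (-b) • x) '' ms K (ng K) b⁻¹ := by
    ext x
    constructor
    · rintro ⟨y, hy, z, hz, rfl⟩
      refine ⟨-z + b⁻¹ • (-y), ⟨-z, hz, -y, ?_, rfl⟩, ?_⟩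
      · show - -y ∈ K
        rwa [neg_neg]
      · show (-b) • (-z + b⁻¹ • (-y)) = y + b • z
        rw [smul_add, smul_smul, neg_mul, mul_inv_cancel₀ hb.ne']
        simp [add_comm]
    · rintro ⟨_, ⟨y, hy, z, hz, rfl⟩, rfl⟩
      refine ⟨-z, hz, -y, ?_, ?_⟩
      · show - -y ∈ K
        rwa [neg_neg]
      · show (-b) • (y + b⁻¹ • z) = -z + b • (-y)
        rw [smul_add, smul_smul, neg_mul, mul_inv_cancel₀ hb.ne']
        simp [add_comm]
  rw [h1, V_smul, abs_neg, abs_of_pos hb]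

/-- The volume of `K - b K`. -/
theorem exists_C (hpoly : S_poly) {K : Set (Fin 3 → ℝ)} (hK : CB K) :
    ∃ C : ℝ, ∀ b : ℝ, 0 ≤ b → V (ms K (ng K) b) = V K * (1 + b ^ 3) + C * (b + b ^ 2) := by
  obtain ⟨c, hc⟩ := hpoly K (ng K) hK (CB_ng hK)
  have h0 : c 0 = V K := by
    have h := hc 0 le_rfl
    rw [ms_zero (CB_ne (CB_ng hK))] at h
    simp at h
    exact h.symm
  have h2 : ∀ b : ℝ, 0 < b → c 0 + c 1 * b + c 2 * b ^ 2 + c 3 * b ^ 3 =
      c 3 + c 2 * b + c 1 * b ^ 2 + c 0 * b ^ 3 := by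
    intro b hb
    have e := V_ms_inv (K := K) b hb
    rw [hc b hb.le, hc b⁻¹ (inv_nonneg.2 hb.le)] at e
    rw [e]
    field_simp
    ring
  have e2 := h2 2 (by norm_num)
  have e3 := h2 3 (by norm_num)
  have h3 : c 3 = c 0 := by linarith
  have h1 : c 2 = c 1 := by linarith
  refine ⟨c 1, fun b hb => ?_⟩
  rw [hc b hb, h3, h1, h0]
  ring

theorem le_of_small {x M : ℝ} (h : ∀ b : ℝ, 0 < b → b ≤ 1 → x ≤ M * b) : x ≤ 0 := by
  by_contra hx
  push Not at hx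
  have hM : 0 < M := by
    have := h 1 one_pos le_rfl
    linarith
  have h1 := h (min 1 (x / (2 * M))) (lt_min one_pos (by positivity)) (min_le_left _ _)
  have h2 : M * min 1 (x / (2 * M)) ≤ M * (x / (2 * M)) :=
    mul_le_mul_of_nonneg_left (min_le_right _ _) hM.le
  have h3 : M * (x / (2 * M)) = x / 2 := by field_simp
  linarith

theorem C_le_sum (hseg : S_seg3) {K : Set (Fin 3 → ℝ)} (hK : CB K) {C : ℝ}
    (hC : ∀ b : ℝ, 0 ≤ b → V (ms K (ng K) b) = V K * (1 + b ^ 3) + C * (b + b ^ 2))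
    {w : Fin 3 → (Fin 3 → ℝ)} {c : Fin 3 → ℝ}
    (hw : ∀ y ∈ K, ∃ t : Fin 3 → ℝ, (∀ i, 0 ≤ t i ∧ t i ≤ 1) ∧ -y = c + ∑ i, t i • w i) :
    C ≤ (V (seg K (w 0)) - V K) + (V (seg K (w 1)) - V K) + (V (seg K (w 2)) - V K) := by
  obtain ⟨M, hM⟩ := hseg K hK w
  set S := (V (seg K (w 0)) - V K) + (V (seg K (w 1)) - V K) + (V (seg K (w 2)) - V K) with hS
  suffices h : C - S ≤ 0 by linarith
  refine le_of_small (M := |M| + |C|) fun b hb hb1 => ?_
  have hsub : ms K (ng K) b ⊆ (fun x => b • c + x) ''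
      seg (seg (seg K (b • w 0)) (b • w 1)) (b • w 2) := by
    rintro _ ⟨y, hy, z, hz, rfl⟩
    obtain ⟨t, ht, hzt⟩ := hw (-z) hz
    rw [neg_neg, Fin.sum_univ_three] at hzt
    refine ⟨y + t 0 • (b • w 0) + t 1 • (b • w 1) + t 2 • (b • w 2),
      ⟨_, ⟨_, ⟨y, hy, t 0, ht 0, rfl⟩, t 1, ht 1, rfl⟩, t 2, ht 2, rfl⟩, ?_⟩
    simp only [hzt]
    module
  have hcomp : IsCompact (seg (seg (seg K (b • w 0)) (b • w 1)) (b • w 2)) :=
    isCompact_seg (isCompact_seg (isCompact_seg hK.comp _) _) _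
  have h1 := V_mono (hcomp.image (by fun_prop : Continuous fun x : Fin 3 → ℝ => b • c + x)) hsub
  rw [V_vadd, hC b hb.le] at h1
  have h2 := hM b hb.le hb1
  have hV := V_nonneg K
  have h3 : b * (C - S) ≤ b * ((|M| + |C|) * b) := by
    have : C * (b + b ^ 2) + 0 ≤ b * S + M * b ^ 2 := by
      have h4 : 0 ≤ V K * b ^ 3 := by positivity
      nlinarith
    have h5 : M * b ^ 2 ≤ |M| * b ^ 2 := mul_le_mul_of_nonneg_right (le_abs_self M) (by positivity)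
    have h6 : -(C * b ^ 2) ≤ |C| * b ^ 2 := by
      have := mul_le_mul_of_nonneg_right (neg_le_abs C) (show (0 : ℝ) ≤ b ^ 2 by positivity)
      linarith
    nlinarith
  exact le_of_mul_le_mul_left h3 hb

theorem C_le_nine (hneg : S_neg3) {K : Set (Fin 3 → ℝ)} (hK : CB K) {C : ℝ}
    (hC : ∀ b : ℝ, 0 ≤ b → V (ms K (ng K) b) = V K * (1 + b ^ 3) + C * (b + b ^ 2)) :
    C ≤ 9 * V K := by
  obtain ⟨x, hx⟩ := hneg K hK
  suffices h : C - 9 * V K ≤ 0 by linarith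
  refine le_of_small (M := |C| + 60 * V K) fun b hb hb1 => ?_
  have hsub : ms K (ng K) b ⊆ (fun y => b • x + y) '' ((fun y => (1 + 3 * b) • y) '' K) := by
    rintro _ ⟨y, hy, z, hz, rfl⟩
    obtain ⟨u, hu, hzu⟩ := hx (-z) hz
    rw [neg_neg] at hzu
    have h3b : (0 : ℝ) < 1 + 3 * b := by linarith
    refine ⟨y + (3 * b) • u, ⟨(1 / (1 + 3 * b)) • y + ((3 * b) / (1 + 3 * b)) • u, ?_, ?_⟩, ?_⟩
    · exact hK.conv hy hu (by positivity) (by positivity) (by field_simp)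
    · show (1 + 3 * b) • ((1 / (1 + 3 * b)) • y + ((3 * b) / (1 + 3 * b)) • u) = y + (3 * b) • u
      rw [smul_add, smul_smul, smul_smul, mul_div_cancel₀ _ h3b.ne', mul_div_cancel₀ _ h3b.ne',
        one_smul]
    · show b • x + (y + (3 * b) • u) = y + b • z
      rw [hzu]
      module
  have h1 := V_mono ((hK.comp.image (by fun_prop : Continuous fun y : Fin 3 → ℝ =>
    (1 + 3 * b) • y)).image (by fun_prop : Continuous fun y : Fin 3 → ℝ => b • x + y)) hsub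
  rw [V_vadd, V_smul, hC b hb.le, abs_of_nonneg (by linarith)] at h1
  have hV := V_nonneg K
  have h3 : b * (C - 9 * V K) ≤ b * ((|C| + 60 * V K) * b) := by
    have h6 : -(C * b ^ 2) ≤ |C| * b ^ 2 := by
      have := mul_le_mul_of_nonneg_right (neg_le_abs C) (show (0 : ℝ) ≤ b ^ 2 by positivity)
      linarith
    have h7 : V K * b ^ 3 ≤ V K * b ^ 2 := by
      apply mul_le_mul_of_nonneg_left _ hV
      nlinarith [sq_nonneg b]
    have h8 : 0 ≤ V K * b ^ 3 := by positivity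
    nlinarith [mul_nonneg hV (sq_nonneg b)]
  exact le_of_mul_le_mul_left h3 hb

/-- The key facts: there is a `w ∈ K - K` with `C ≤ 3 (V (K + [0, w]) - V K)`. -/
theorem exists_seg (hseg : S_seg3) (haue : S_aue) {K : Set (Fin 3 → ℝ)} (hK : CB K) {C : ℝ}
    (hC : ∀ b : ℝ, 0 ≤ b → V (ms K (ng K) b) = V K * (1 + b ^ 3) + C * (b + b ^ 2)) :
    ∃ w : Fin 3 → ℝ, (∃ z ∈ K, z + w ∈ K) ∧ V K + C / 3 ≤ V (seg K w) := by
  obtain ⟨w, hw, c, hc⟩ := haue K hK
  have h1 := C_le_sum hseg hK hC hc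
  by_contra h
  push Not at h
  have h2 := h (w 0) (hw 0)
  have h3 := h (w 1) (hw 1)
  have h4 := h (w 2) (hw 2)
  linarith

/-- Busemann: some `w ∈ K - K` has `V (K - K) ≤ 5 V (K + [0, w])`. -/
theorem bus_lower (hpoly : S_poly) (hseg : S_seg3) (haue : S_aue) (hneg : S_neg3)
    {K : Set (Fin 3 → ℝ)} (hK : CB K) :
    ∃ w : Fin 3 → ℝ, (∃ z ∈ K, z + w ∈ K) ∧ V (df K) ≤ 5 * V (seg K w) := by
  obtain ⟨C, hC⟩ := exists_C hpoly hK
  obtain ⟨w, hw, hw'⟩ := exists_seg hseg haue hK hC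
  refine ⟨w, hw, ?_⟩
  have h1 := C_le_nine hneg hK hC
  have h2 := hC 1 zero_le_one
  rw [ms_one_ng] at h2
  rw [h2]
  linarith

/-- Holmes–Thompson: some `w ∈ K - K` has `8 / 3 ≤ V (polar (K - K)) * V (K + [0, w])`. -/
theorem ht_lower (hpoly : S_poly) (hseg : S_seg3) (haue : S_aue) (hmah : S_mah)
    {K : Set (Fin 3 → ℝ)} (hK : CB K) :
    ∃ w : Fin 3 → ℝ, (∃ z ∈ K, z + w ∈ K) ∧ 8 / 3 ≤ V (po (df K)) * V (seg K w) := by
  obtain ⟨C, hC⟩ := exists_C hpoly hK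
  obtain ⟨w, hw, hw'⟩ := exists_seg hseg haue hK hC
  refine ⟨w, hw, ?_⟩
  have h1 := hmah K hK C (fun b hb _ => (hC b hb).le)
  exact h1.trans (mul_le_mul_of_nonneg_left hw' (V_nonneg _))

end Pool.Agent.H629R2.HT
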