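import Pool.Agent.H629R2.HT.Stubs

/-!
# Project HT3, task NEG3: `-K` is contained in a translate of `3 K`
-/

set_option autoImplicit false

namespace Pool.Agent.H629R2.HT

open MeasureTheory Set Matrix

/-- the matrix with columns `(1, v i)` -/
def bm (v : Fin 4 → (Fin 3 → ℝ)) : Matrix (Fin 4) (Fin 4) ℝ :=
  Matrix.of fun j i => (Fin.cons 1 (v i) : Fin 4 → ℝ) j

theorem continuous_bm_det : Continuous fun v : Fin 4 → (Fin 3 → ℝ) => (bm v).det := by
  apply Continuous.matrix_det
  refine continuous_matrix fun j i => ?_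
  refine Fin.cases ?_ (fun k => ?_) j
  · simp only [bm, Matrix.of_apply, Fin.cons_zero]; exact continuous_const
  · simp only [bm, Matrix.of_apply, Fin.cons_succ]
    exact (continuous_apply k).comp (continuous_apply i)

theorem bm_update (v : Fin 4 → (Fin 3 → ℝ)) (i : Fin 4) (y : Fin 3 → ℝ) :
    (bm v).updateCol i (Fin.cons 1 y) = bm (Function.update v i y) := by
  ext j k
  rw [Matrix.updateCol_apply]
  by_cases h : k = i
  · subst h; simp [bm]
  · simp [bm, h]

theorem bm_simplex (x : Fin 3 → ℝ) (δ : ℝ) :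
    (bm ![x, x + δ • Pi.single 0 1, x + δ • Pi.single 1 1, x + δ • Pi.single 2 1]).det = δ ^ 3 := by
  have hb : bm ![x, x + δ • Pi.single 0 1, x + δ • Pi.single 1 1, x + δ • Pi.single 2 1] =
      !![1, 1, 1, 1; x 0, x 0 + δ, x 0, x 0; x 1, x 1, x 1 + δ, x 1; x 2, x 2, x 2, x 2 + δ] := by
    ext j i
    fin_cases j
    · fin_cases i <;> rfl
    · change (![x, x + δ • Pi.single 0 1, x + δ • Pi.single 1 1, x + δ • Pi.single 2 1] i) 0 = _
      fin_cases i <;> simp
    · change (![x, x + δ • Pi.single 0 1, x + δ • Pi.single 1 1, x + δ • Pi.single 2 1] i) 1 = _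
      fin_cases i <;> simp
    · change (![x, x + δ • Pi.single 0 1, x + δ • Pi.single 1 1, x + δ • Pi.single 2 1] i) 2 = _
      fin_cases i <;> simp
  rw [hb]
  simp [Matrix.det_succ_row_zero, Fin.sum_univ_succ, Fin.succAbove]
  ring

theorem S_neg3_proof : S_neg3 := by
  intro K hK
  set P : Set (Fin 4 → (Fin 3 → ℝ)) := Set.pi univ fun _ => K with hP
  have hPc : IsCompact P := isCompact_univ_pi fun _ => hK.comp
  obtain ⟨x0, hx0⟩ := hK.int
  have hx0K : x0 ∈ K := interior_subset hx0
  have hPn : P.Nonempty := ⟨fun _ => x0, fun _ _ => hx0K⟩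
  obtain ⟨v, hvP, hvmax⟩ := hPc.exists_isMaxOn hPn
    (continuous_abs.comp continuous_bm_det).continuousOn
  have hvK : ∀ i, v i ∈ K := fun i => hvP i (mem_univ i)
  have hmax : ∀ w : Fin 4 → (Fin 3 → ℝ), (∀ i, w i ∈ K) → |(bm w).det| ≤ |(bm v).det| := by
    intro w hw
    exact hvmax (fun i _ => hw i)
  -- positivity
  have hpos : 0 < |(bm v).det| := by
    obtain ⟨δ, hδ, hball⟩ := Metric.isOpen_iff.1 isOpen_interior x0 hx0
    have hin : ∀ k : Fin 3, x0 + (δ / 2) • (Pi.single k 1 : Fin 3 → ℝ) ∈ K := by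
      intro k
      apply interior_subset
      apply hball
      rw [Metric.mem_ball, dist_eq_norm]
      have : x0 + (δ / 2) • (Pi.single k 1 : Fin 3 → ℝ) - x0 = (δ / 2) • Pi.single k 1 := by
        simp
      rw [this, norm_smul, Pi.norm_single]
      simp [abs_of_pos hδ]
      linarith
    have h1 := hmax ![x0, x0 + (δ / 2) • Pi.single 0 1, x0 + (δ / 2) • Pi.single 1 1,
      x0 + (δ / 2) • Pi.single 2 1] (by
        intro i
        fin_cases i
        · exact hx0K
        · exact hin 0
        · exact hin 1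
        · exact hin 2)
    rw [bm_simplex] at h1
    have : (0 : ℝ) < |(δ / 2) ^ 3| := by positivity
    linarith
  have hne : (bm v).det ≠ 0 := abs_pos.1 hpos
  refine ⟨-∑ i, v i, fun y hy => ?_⟩
  set β : Fin 4 → ℝ := fun i => ((bm v).det)⁻¹ * (bm v).cramer (Fin.cons 1 y) i with hβ
  have hβle : ∀ i, |β i| ≤ 1 := by
    intro i
    rw [hβ]
    simp only
    rw [Matrix.cramer_apply, bm_update, abs_mul, abs_inv]
    rw [inv_mul_le_iff₀ hpos, mul_one]
    apply hmax
    intro k
    by_cases h : k = i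
    · subst h; simpa using hy
    · rw [Function.update_of_ne h]; exact hvK k
  have hsol : (bm v) *ᵥ β = Fin.cons 1 y := by
    have h1 := Matrix.mulVec_cramer (bm v) (Fin.cons 1 y)
    have h2 : β = ((bm v).det)⁻¹ • (bm v).cramer (Fin.cons 1 y) := by
      ext i; simp [hβ]
    rw [h2, Matrix.mulVec_smul, h1, smul_smul, inv_mul_cancel₀ hne, one_smul]
  have hsum : ∑ i, β i = 1 := by
    have := congrFun hsol 0
    simpa [Matrix.mulVec, dotProduct, bm] using this
  have hcomb : ∑ i, β i • v i = y := by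
    ext k
    have := congrFun hsol k.succ
    simp only [Matrix.mulVec, dotProduct, bm, Matrix.of_apply, Fin.cons_succ] at this
    rw [Finset.sum_apply]
    rw [← this]
    exact Finset.sum_congr rfl fun i _ => by simp [mul_comm]
  refine ⟨∑ i, ((1 - β i) / 3) • v i, ?_, ?_⟩
  · refine hK.conv.sum_mem (fun i _ => ?_) ?_ (fun i _ => hvK i)
    · have := (abs_le.1 (hβle i)).2
      linarith
    · rw [← Finset.sum_div, Finset.sum_sub_distrib, hsum]
      norm_num
  · rw [Finset.smul_sum]
    have : ∀ i ∈ Finset.univ, (3 : ℝ) • ((1 - β i) / 3) • v i = v i - β i • v i := by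
      intro i _
      rw [smul_smul, ← one_smul ℝ (v i), smul_smul, smul_smul, ← sub_smul]
      congr 1
      ring
    rw [Finset.sum_congr rfl this, Finset.sum_sub_distrib, hcomb]
    abel

end Pool.Agent.H629R2.HT
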