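import Pool.Agent.H629R2.HT.Stubs

/-!
# Project HT3, task POLY: Minkowski's theorem, `|K + b L|` is a cubic polynomial in `b`.
-/

set_option autoImplicit false

namespace Pool.Agent.H629R2.HT

open MeasureTheory Set Matrix Filter Topology Pool.Agent.H629R2.Tr

namespace Poly

theorem isCompact_ms {n : ℕ} {K L : Set (Fin n → ℝ)} (hK : IsCompact K) (hL : IsCompact L)
    (b : ℝ) : IsCompact (ms K L b) := by
  have h : ms K L b = (fun q : (Fin n → ℝ) × (Fin n → ℝ) => q.1 + b • q.2) '' (K ×ˢ L) := by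
    ext x
    constructor
    · rintro ⟨y, hy, z, hz, rfl⟩
      exact ⟨(y, z), ⟨hy, hz⟩, rfl⟩
    · rintro ⟨⟨y, z⟩, ⟨hy, hz⟩, rfl⟩
      exact ⟨y, hy, z, hz, rfl⟩
  rw [h]
  exact (hK.prod hL).image (by fun_prop)

theorem convex_ms {n : ℕ} {K L : Set (Fin n → ℝ)} (hK : Convex ℝ K) (hL : Convex ℝ L)
    (b : ℝ) : Convex ℝ (ms K L b) := by
  rintro _ ⟨y, hy, z, hz, rfl⟩ _ ⟨y', hy', z', hz', rfl⟩ s t hs ht hst
  refine ⟨s • y + t • y', hK hy hy' hs ht hst, s • z + t • z', hL hz hz' hs ht hst, ?_⟩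
  module

theorem norm_le_sum {n : ℕ} (a : Fin n → ℝ) : ‖a‖ ≤ ∑ i, |a i| := by
  rw [pi_norm_le_iff_of_nonneg (Finset.sum_nonneg fun i _ => abs_nonneg _)]
  intro i
  rw [Real.norm_eq_abs]
  exact Finset.single_le_sum (f := fun i => |a i|) (fun j _ => abs_nonneg _) (Finset.mem_univ i)

theorem exists_far {n : ℕ} (a p : Fin n → ℝ) {r : ℝ} (hr : 0 ≤ r) :
    ∃ q ∈ Metric.closedBall p r, a ⬝ᵥ p + r * ‖a‖ ≤ a ⬝ᵥ q := by
  refine ⟨p + r • fun i => if 0 ≤ a i then (1 : ℝ) else -1, ?_, ?_⟩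
  · rw [Metric.mem_closedBall, dist_pi_le_iff hr]
    intro i
    rw [Real.dist_eq]
    simp only [Pi.add_apply, Pi.smul_apply, smul_eq_mul, add_sub_cancel_left]
    split_ifs <;> simp [abs_of_nonneg hr]
  · rw [dotProduct_add, dotProduct_smul, smul_eq_mul]
    have h1 : a ⬝ᵥ (fun i => if 0 ≤ a i then (1 : ℝ) else -1) = ∑ i, |a i| := by
      unfold dotProduct
      refine Finset.sum_congr rfl fun i _ => ?_
      show a i * (if 0 ≤ a i then (1 : ℝ) else -1) = |a i|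
      split_ifs with h
      · rw [abs_of_nonneg h, mul_one]
      · rw [abs_of_neg (not_le.1 h)]
        ring
    rw [h1]
    have := mul_le_mul_of_nonneg_left (norm_le_sum a) hr
    linarith

/-- the four-point interpolation formula for `det (A + b B)` -/
theorem det_interp (A B : Matrix (Fin 3) (Fin 3) ℝ) (b : ℝ) :
    (A + b • B).det =
      -((b - 1) * (b - 2) * (b - 3)) / 6 * (A + (0 : ℝ) • B).det
      + b * (b - 2) * (b - 3) / 2 * (A + (1 : ℝ) • B).det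
      + -(b * (b - 1) * (b - 3)) / 2 * (A + (2 : ℝ) • B).det
      + b * (b - 1) * (b - 2) / 6 * (A + (3 : ℝ) • B).det := by
  simp only [Matrix.det_fin_three, Matrix.add_apply, Matrix.smul_apply, smul_eq_mul]
  ring

theorem det_nn {n : ℕ} {A B : Matrix (Fin n) (Fin n) ℝ}
    (hA : ∀ u, 0 ≤ u ⬝ᵥ (A *ᵥ u)) (hA' : Aᵀ = A) (hB : ∀ u, 0 ≤ u ⬝ᵥ (B *ᵥ u)) (hB' : Bᵀ = B)
    {b : ℝ} (hb : 0 ≤ b) : 0 ≤ (A + b • B).det := by
  refine Matrix.PosSemidef.det_nonneg (Matrix.PosSemidef.of_dotProduct_mulVec_nonneg ?_ ?_)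
  · rw [Matrix.IsHermitian, Matrix.conjTranspose_eq_transpose_of_trivial, Matrix.transpose_add,
      Matrix.transpose_smul, hA', hB']
  · intro x
    rw [star_trivial, Matrix.add_mulVec, Matrix.smul_mulVec, dotProduct_add, dotProduct_smul]
    have h1 := hA x
    have h2 := mul_nonneg hb (hB x)
    rw [smul_eq_mul]
    linarith

/-- the volume of `K + b L` is the integral of the determinant -/
theorem vol_ms {n : ℕ} {K L : Set (Fin n → ℝ)} (hK : CB K) (hL : CB L) {b : ℝ} (hb : 0 ≤ b)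
    (ψK ψL : (Fin n → ℝ) → ℝ) (gK gL : (Fin n → ℝ) → (Fin n → ℝ))
    (HK HL : (Fin n → ℝ) → Matrix (Fin n) (Fin n) ℝ)
    (mK : ∀ a, gK a ∈ K) (mL : ∀ a, gL a ∈ L)
    (pK : ∀ a u, 0 ≤ u ⬝ᵥ (HK a *ᵥ u)) (pL : ∀ a u, 0 ≤ u ⬝ᵥ (HL a *ᵥ u))
    (sK : ∀ a, (HK a)ᵀ = HK a) (sL : ∀ a, (HL a)ᵀ = HL a)
    (dK : ∀ a, HasFDerivAt gK (LinearMap.toContinuousLinearMap (Matrix.toLin' (HK a))) a)
    (dL : ∀ a, HasFDerivAt gL (LinearMap.toContinuousLinearMap (Matrix.toLin' (HL a))) a)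
    (eK : ∀ a, HasFDerivAt ψK (LinearMap.toContinuousLinearMap (dotProductBilin ℝ ℝ (gK a))) a)
    (eL : ∀ a, HasFDerivAt ψL (LinearMap.toContinuousLinearMap (dotProductBilin ℝ ℝ (gL a))) a)
    (iK : ∀ a a', a ≠ a' → (a - a') ⬝ᵥ gK a' < (a - a') ⬝ᵥ gK a)
    (iL : ∀ a a', a ≠ a' → (a - a') ⬝ᵥ gL a' < (a - a') ⬝ᵥ gL a)
    (uK : ∀ ε : ℝ, 0 < ε → ∃ C : ℝ, ∀ a, ∀ x ∈ K, a ⬝ᵥ x ≤ ψK a + ε * ‖a‖ + C)
    (uL : ∀ ε : ℝ, 0 < ε → ∃ C : ℝ, ∀ a, ∀ x ∈ L, a ⬝ᵥ x ≤ ψL a + ε * ‖a‖ + C) :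
    ∫⁻ a, ENNReal.ofReal ((HK a + b • HL a).det) = volume (ms K L b) := by
  set F : (Fin n → ℝ) → (Fin n → ℝ) := fun a => gK a + b • gL a with hF
  set D : (Fin n → ℝ) → ((Fin n → ℝ) →L[ℝ] (Fin n → ℝ)) :=
    fun a => LinearMap.toContinuousLinearMap (Matrix.toLin' (HK a)) +
      b • LinearMap.toContinuousLinearMap (Matrix.toLin' (HL a)) with hD
  have hdet : ∀ a, (D a).det = (HK a + b • HL a).det := by
    intro a
    have h1 : D a = LinearMap.toContinuousLinearMap (Matrix.toLin' (HK a + b • HL a)) := by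
      rw [hD, map_add, map_smul, map_add, map_smul]
    rw [h1, LinearMap.det_toContinuousLinearMap, LinearMap.det_toLin']
  have hFD : ∀ a, HasFDerivAt F (D a) a := fun a => (dK a).add ((dL a).const_smul b)
  have hinj : Function.Injective F := by
    intro a a' h
    by_contra hne
    have h1 := iK a a' hne
    have h2 := iL a a' hne
    have h3 : (a - a') ⬝ᵥ F a' < (a - a') ⬝ᵥ F a := by
      rw [hF]
      simp only [dotProduct_add, dotProduct_smul, smul_eq_mul]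
      have := mul_le_mul_of_nonneg_left h2.le hb
      linarith
    rw [h] at h3
    exact lt_irrefl _ h3
  have himg : F '' univ ⊆ ms K L b := by
    rintro _ ⟨a, -, rfl⟩
    exact ⟨gK a, mK a, gL a, mL a, rfl⟩
  have hint : interior (ms K L b) ⊆ F '' univ := by
    intro p hp
    obtain ⟨r, hr, hball⟩ : ∃ r > 0, Metric.closedBall p r ⊆ ms K L b := by
      obtain ⟨r, hr, h⟩ := Metric.nhds_basis_closedBall.mem_iff.1 (mem_interior_iff_mem_nhds.1 hp)
      exact ⟨r, hr, h⟩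
    set ε : ℝ := r / (2 * (1 + b)) with hε
    have hb1 : 0 < 1 + b := by linarith
    have hε0 : 0 < ε := by positivity
    obtain ⟨CK, hCK⟩ := uK ε hε0
    obtain ⟨CL, hCL⟩ := uL ε hε0
    set Φ : (Fin n → ℝ) → ℝ := fun a => ψK a + b * ψL a - p ⬝ᵥ a with hΦ
    have hΦd : ∀ a, HasFDerivAt Φ (LinearMap.toContinuousLinearMap
        (dotProductBilin ℝ ℝ (gK a)) + b • LinearMap.toContinuousLinearMap
        (dotProductBilin ℝ ℝ (gL a)) - LinearMap.toContinuousLinearMap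
        (dotProductBilin ℝ ℝ p)) a := by
      intro a
      refine ((eK a).add ((eL a).const_mul b)).sub ?_
      exact (LinearMap.toContinuousLinearMap (dotProductBilin ℝ ℝ p)).hasFDerivAt
    have hΦc : Continuous Φ := continuous_iff_continuousAt.2 fun a => (hΦd a).continuousAt
    have hlow : ∀ a, r / 2 * ‖a‖ - (CK + b * CL) ≤ Φ a := by
      intro a
      obtain ⟨q, hq, hqa⟩ := exists_far a p hr.le
      obtain ⟨x, hx, z, hz, rfl⟩ := hball hq
      have h1 := hCK a x hx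
      have h2 := mul_le_mul_of_nonneg_left (hCL a z hz) hb
      rw [dotProduct_add, dotProduct_smul, smul_eq_mul] at hqa
      have h3 : ε * (1 + b) = r / 2 := by
        rw [hε]
        field_simp
      have h4 : p ⬝ᵥ a = a ⬝ᵥ p := dotProduct_comm _ _
      rw [hΦ]
      simp only
      rw [h4]
      have h5 : ε * ‖a‖ + b * (ε * ‖a‖) = r / 2 * ‖a‖ := by rw [← h3]; ring
      nlinarith
    have hcoer : Tendsto Φ (cocompact (Fin n → ℝ)) atTop := by
      refine tendsto_atTop_mono hlow ?_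
      have h1 : Tendsto (fun a : Fin n → ℝ => r / 2 * ‖a‖) (cocompact (Fin n → ℝ)) atTop :=
        tendsto_norm_cocompact_atTop.const_mul_atTop (by positivity)
      exact tendsto_atTop_add_const_right _ _ h1
    obtain ⟨a, ha⟩ := hΦc.exists_forall_le hcoer
    refine ⟨a, mem_univ _, ?_⟩
    have hmin : IsLocalMin Φ a := Filter.Eventually.of_forall ha
    have h0 := hmin.hasFDerivAt_eq_zero (hΦd a)
    have h1 : ∀ v, (gK a + b • gL a - p) ⬝ᵥ v = 0 := by
      intro v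
      have := congrArg (fun f : (Fin n → ℝ) →L[ℝ] ℝ => f v) h0
      simpa [sub_dotProduct, add_dotProduct, smul_dotProduct] using this
    have h2 : gK a + b • gL a - p = 0 := dotProduct_eq_zero _ h1
    rw [hF]
    exact sub_eq_zero.1 h2
  have hae : volume (interior (ms K L b)) = volume (ms K L b) :=
    measure_congr (interior_ae_eq_of_null_frontier
      ((convex_ms hK.conv hL.conv b).addHaar_frontier volume))
  have hvol : volume (F '' univ) = volume (ms K L b) :=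
    le_antisymm (measure_mono himg) (hae ▸ measure_mono hint)
  rw [← hvol, ← lintegral_abs_det_fderiv_eq_addHaar_image volume MeasurableSet.univ
    (fun a _ => (hFD a).hasFDerivWithinAt) hinj.injOn, Measure.restrict_univ]
  refine lintegral_congr fun a => ?_
  rw [hdet, abs_of_nonneg (det_nn (pK a) (sK a) (pL a) (sL a) hb)]

theorem int4 {f0 f1 f2 f3 : (Fin 3 → ℝ) → ℝ} (h0 : Integrable f0) (h1 : Integrable f1)
    (h2 : Integrable f2) (h3 : Integrable f3) (c0 c1 c2 c3 : ℝ) :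
    ∫ a, (c0 * f0 a + c1 * f1 a + c2 * f2 a + c3 * f3 a) =
      c0 * (∫ a, f0 a) + c1 * (∫ a, f1 a) + c2 * (∫ a, f2 a) + c3 * (∫ a, f3 a) := by
  have k0 := h0.const_mul c0
  have k1 := h1.const_mul c1
  have k2 := h2.const_mul c2
  have k3 := h3.const_mul c3
  have e1 : ∫ a, (c0 * f0 a + c1 * f1 a + c2 * f2 a + c3 * f3 a) =
      (∫ a, (c0 * f0 a + c1 * f1 a + c2 * f2 a)) + ∫ a, c3 * f3 a :=
    integral_add ((k0.add k1).add k2) k3
  have e2 : ∫ a, (c0 * f0 a + c1 * f1 a + c2 * f2 a) =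
      (∫ a, (c0 * f0 a + c1 * f1 a)) + ∫ a, c2 * f2 a := integral_add (k0.add k1) k2
  have e3 : ∫ a, (c0 * f0 a + c1 * f1 a) = (∫ a, c0 * f0 a) + ∫ a, c1 * f1 a :=
    integral_add k0 k1
  rw [e1, e2, e3, integral_const_mul, integral_const_mul, integral_const_mul, integral_const_mul]

end Poly

theorem S_poly_proof (hgrad : S_grad) : S_poly := by
  intro K L hK hL
  obtain ⟨ψK, gK, HK, mK, pK, sK, cK, dK, eK, iK, uK⟩ := hgrad 3 K hK
  obtain ⟨ψL, gL, HL, mL, pL, sL, cL, dL, eL, iL, uL⟩ := hgrad 3 L hL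
  have hv : ∀ b : ℝ, 0 ≤ b →
      ∫⁻ a, ENNReal.ofReal ((HK a + b • HL a).det) = volume (ms K L b) := fun b hb =>
    Poly.vol_ms hK hL hb ψK ψL gK gL HK HL mK mL pK pL sK sL dK dL eK eL iK iL uK uL
  have hcont : ∀ b : ℝ, Continuous fun a => (HK a + b • HL a).det := fun b =>
    (cK.add (cL.const_smul b)).matrix_det
  have hnn : ∀ b : ℝ, 0 ≤ b → ∀ a, 0 ≤ (HK a + b • HL a).det := fun b hb a =>
    Poly.det_nn (pK a) (sK a) (pL a) (sL a) hb
  have hint : ∀ b : ℝ, 0 ≤ b → Integrable fun a => (HK a + b • HL a).det := by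
    intro b hb
    refine ⟨(hcont b).aestronglyMeasurable, ?_⟩
    rw [hasFiniteIntegral_iff_ofReal (Filter.Eventually.of_forall (hnn b hb)), hv b hb]
    exact (Poly.isCompact_ms hK.comp hL.comp b).measure_lt_top
  have hV : ∀ b : ℝ, 0 ≤ b → V (ms K L b) = ∫ a, (HK a + b • HL a).det := by
    intro b hb
    rw [integral_eq_lintegral_of_nonneg_ae (Filter.Eventually.of_forall (hnn b hb))
      (hcont b).aestronglyMeasurable, hv b hb]
    rfl
  have key : ∀ b : ℝ, 0 ≤ b → V (ms K L b) =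
      -((b - 1) * (b - 2) * (b - 3)) / 6 * V (ms K L 0)
      + b * (b - 2) * (b - 3) / 2 * V (ms K L 1)
      + -(b * (b - 1) * (b - 3)) / 2 * V (ms K L 2)
      + b * (b - 1) * (b - 2) / 6 * V (ms K L 3) := by
    intro b hb
    rw [hV b hb, hV 0 le_rfl, hV 1 zero_le_one, hV 2 zero_le_two, hV 3 (by norm_num),
      ← Poly.int4 (hint 0 le_rfl) (hint 1 zero_le_one) (hint 2 zero_le_two)
        (hint 3 (by norm_num))]
    refine integral_congr_ae (Filter.Eventually.of_forall fun a => ?_)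
    exact Poly.det_interp (HK a) (HL a) b
  refine ⟨![V (ms K L 0),
    -11 / 6 * V (ms K L 0) + 3 * V (ms K L 1) - 3 / 2 * V (ms K L 2) + 1 / 3 * V (ms K L 3),
    V (ms K L 0) - 5 / 2 * V (ms K L 1) + 2 * V (ms K L 2) - 1 / 2 * V (ms K L 3),
    -1 / 6 * V (ms K L 0) + 1 / 2 * V (ms K L 1) - 1 / 2 * V (ms K L 2) + 1 / 6 * V (ms K L 3)],
    fun b hb => ?_⟩
  rw [key b hb]
  simp
  ring

end Pool.Agent.H629R2.HT
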