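import Pool.Agent.H629R2.HT.Stubs

/-!
# SEG3: the volume of `K + b ([0, w 0] + [0, w 1] + [0, w 2])` up to order two
-/

set_option autoImplicit false

namespace Pool.Agent.H629R2.HT

open MeasureTheory Set Matrix Pool.Agent.H629R2.Tr
open scoped Pointwise

theorem vol_aff {n : ℕ} (m : ℝ) (hm : 0 < m) (v : Fin n → ℝ) (K : Set (Fin n → ℝ)) :
    V ((fun y => m • y + v) '' K) = m ^ n * V K := by
  have h1 : (fun y => m • y + v) '' K = (fun y => y + v) '' (m • K) := by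
    rw [← image_smul, image_image]
  unfold V
  rw [h1, image_add_right, measure_preimage_add_right, Measure.addHaar_smul, ENNReal.toReal_mul]
  congr 1
  rw [Module.finrank_fin_fun, abs_of_pos (by positivity), ENNReal.toReal_ofReal (by positivity)]

theorem V_mono {n : ℕ} {K L : Set (Fin n → ℝ)} (hL : IsCompact L) (h : K ⊆ L) : V K ≤ V L :=
  ENNReal.toReal_mono hL.measure_lt_top.ne (measure_mono h)

theorem V_nonneg {n : ℕ} (K : Set (Fin n → ℝ)) : 0 ≤ V K := ENNReal.toReal_nonneg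

theorem seg_zero' {d : ℕ} (K : Set (Fin d → ℝ)) : seg K 0 = K := by
  ext x
  constructor
  · rintro ⟨z, hz, s, hs, rfl⟩
    simpa using hz
  · intro hx
    exact ⟨x, hx, 0, by simp, by simp⟩

theorem convex_seg {d : ℕ} {K : Set (Fin d → ℝ)} (hK : Convex ℝ K) (p : Fin d → ℝ) :
    Convex ℝ (seg K p) := by
  rintro _ ⟨z, hz, s, hs, rfl⟩ _ ⟨z', hz', s', hs', rfl⟩ a b ha hb hab
  refine ⟨a • z + b • z', hK hz hz' ha hb hab, a * s + b * s', ?_, ?_⟩
  · exact ⟨by nlinarith [mul_nonneg ha hs.1, mul_nonneg hb hs'.1],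
      by nlinarith [mul_le_mul_of_nonneg_left hs.2 ha, mul_le_mul_of_nonneg_left hs'.2 hb]⟩
  · module

/-- The linear term of the volume of `K + [0, w]`. -/
theorem lemW1 {n : ℕ} (w : Fin (n + 1) → ℝ) : ∃ P : Set (Fin (n + 1) → ℝ) → ℝ,
    (∀ K, IsCompact K → Convex ℝ K → V (seg K w) = V K + P K) ∧
    (∀ K L, IsCompact L → K ⊆ L → P K ≤ P L) ∧
    (∀ K, ∀ m : ℝ, 0 < m → ∀ v, P ((fun y => m • y + v) '' K) = m ^ n * P K) ∧
    (∀ K, 0 ≤ P K) := by
  by_cases hp : w = 0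
  · refine ⟨fun _ => 0, ?_, ?_, ?_, ?_⟩
    · intro K _ _
      rw [hp, seg_zero', add_zero]
    · intro _ _ _ _
      exact le_rfl
    · intro _ _ _ _
      simp
    · intro _
      exact le_rfl
  obtain ⟨j, hj⟩ : ∃ j, w j ≠ 0 := by
    by_contra h
    push Not at h
    exact hp (funext h)
  set A : Matrix (Fin (n + 1)) (Fin (n + 1)) ℝ := (1 : Matrix _ _ ℝ).updateCol j w with hA
  set f : (Fin (n + 1) → ℝ) →ₗ[ℝ] (Fin (n + 1) → ℝ) := Matrix.toLin' A with hf
  have hfj : f (Pi.single j 1) = w := by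
    rw [hf, Matrix.toLin'_apply, Matrix.mulVec_single_one]
    funext k
    simp [hA, Matrix.col]
  have hdet : f.det ≠ 0 := by
    rw [hf, LinearMap.det_toLin', hA]
    rw [← Matrix.cramer_apply, Matrix.cramer_one]
    exact hj
  set e := f.equivOfDetNeZero hdet with he
  have hef : ∀ x, e x = f x := fun x => rfl
  have hec : Continuous (e.symm : (Fin (n + 1) → ℝ) →ₗ[ℝ] (Fin (n + 1) → ℝ)) :=
    LinearMap.continuous_of_finiteDimensional _
  refine ⟨fun K => |f.det| * V (drp j '' (e.symm '' K)), ?_, ?_, ?_, ?_⟩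
  · intro K hc hK
    show V (seg K w) = V K + |f.det| * V (drp j '' (e.symm '' K))
    set K' : Set (Fin (n + 1) → ℝ) := e.symm '' K with hK'
    have hKf : f '' K' = K := by
      rw [hK', image_image]
      have : ∀ x, f (e.symm x) = x := fun x => by rw [← hef]; exact e.apply_symm_apply x
      simp [this]
    have hK'c : Convex ℝ K' := hK.linear_image (e.symm : (Fin (n + 1) → ℝ) →ₗ[ℝ] (Fin (n + 1) → ℝ))
    have hK'k : IsCompact K' := hc.image hec
    have h1 : seg K w = f '' seg K' (Pi.single j 1) := by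
      rw [image_seg, hKf, hfj]
    have h2 : volume K = ENNReal.ofReal |f.det| * volume K' := by
      rw [← Measure.addHaar_image_linearMap, hKf]
    unfold V
    rw [h1, Measure.addHaar_image_linearMap, h2, vol_seg_single j hK'c hK'k]
    rw [ENNReal.toReal_mul, ENNReal.toReal_mul, ENNReal.toReal_add hK'k.measure_lt_top.ne
      (hK'k.image (continuous_drp j)).measure_lt_top.ne, ENNReal.toReal_ofReal (abs_nonneg _)]
    ring
  · intro K L hL hKL
    refine mul_le_mul_of_nonneg_left ?_ (abs_nonneg _)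
    exact V_mono ((hL.image hec).image (continuous_drp j)) (image_mono (image_mono hKL))
  · intro K m hm v
    show |f.det| * V (drp j '' (e.symm '' ((fun y => m • y + v) '' K))) =
      m ^ n * (|f.det| * V (drp j '' (e.symm '' K)))
    have h1 : drp j '' (e.symm '' ((fun y => m • y + v) '' K)) =
        (fun y => m • y + drp j (e.symm v)) '' (drp j '' (e.symm '' K)) := by
      simp only [image_image, map_add, map_smul, drp_add, drp_smul]
    rw [h1, vol_aff m hm]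
    ring
  · intro K
    exact mul_nonneg (abs_nonneg _) (V_nonneg _)

theorem lemW {n : ℕ} (w : Fin (n + 1) → ℝ) : ∃ P : Set (Fin (n + 1) → ℝ) → ℝ,
    (∀ K, IsCompact K → Convex ℝ K → ∀ b : ℝ, 0 ≤ b → V (seg K (b • w)) = V K + b * P K) ∧
    (∀ K L, IsCompact L → K ⊆ L → P K ≤ P L) ∧
    (∀ K, ∀ m : ℝ, 0 < m → ∀ v, P ((fun y => m • y + v) '' K) = m ^ n * P K) ∧
    (∀ K, 0 ≤ P K) := by
  obtain ⟨P, h1, h2, h3, h4⟩ := lemW1 w
  refine ⟨P, ?_, h2, h3, h4⟩
  intro K hc hK b hb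
  rcases hb.eq_or_lt with rfl | hb
  · rw [zero_smul, seg_zero', zero_mul, add_zero]
  · set L : Set (Fin (n + 1) → ℝ) := (fun y => b⁻¹ • y + 0) '' K with hL
    have hLc : IsCompact L := hc.image (by fun_prop)
    have hLK : Convex ℝ L := by
      have : L = b⁻¹ • K := by
        rw [hL, ← image_smul]
        simp
      rw [this]
      exact hK.smul _
    have h5 : seg K (b • w) = (fun y => b • y + 0) '' seg L w := by
      ext x
      constructor
      · rintro ⟨z, hz, s, hs, rfl⟩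
        refine ⟨b⁻¹ • z + 0 + s • w, ⟨_, ⟨z, hz, rfl⟩, s, hs, rfl⟩, ?_⟩
        show b • (b⁻¹ • z + 0 + s • w) + 0 = z + s • b • w
        rw [add_zero, add_zero, smul_add, smul_smul, mul_inv_cancel₀ hb.ne', one_smul, smul_comm]
      · rintro ⟨_, ⟨_, ⟨z, hz, rfl⟩, s, hs, rfl⟩, rfl⟩
        refine ⟨z, hz, s, hs, ?_⟩
        show b • (b⁻¹ • z + 0 + s • w) + 0 = z + s • b • w
        rw [add_zero, add_zero, smul_add, smul_smul, mul_inv_cancel₀ hb.ne', one_smul, smul_comm]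
    rw [h5, vol_aff b hb, h1 L hLc hLK, hL, vol_aff b⁻¹ (inv_pos.2 hb), h3 K b⁻¹ (inv_pos.2 hb) 0]
    have h6 : b ^ (n + 1) * (b⁻¹) ^ (n + 1) = 1 := by
      rw [← mul_pow, mul_inv_cancel₀ hb.ne', one_pow]
    have h7 : b ^ (n + 1) * (b⁻¹) ^ n = b := by
      rw [pow_succ', mul_assoc, ← mul_pow, mul_inv_cancel₀ hb.ne', one_pow, mul_one]
    calc b ^ (n + 1) * (b⁻¹ ^ (n + 1) * V K + b⁻¹ ^ n * P K)
        = (b ^ (n + 1) * b⁻¹ ^ (n + 1)) * V K + (b ^ (n + 1) * b⁻¹ ^ n) * P K := by ring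
      _ = V K + b * P K := by rw [h6, h7, one_mul]

theorem lem_step {d : ℕ} {K : Set (Fin d → ℝ)} (hK : Convex ℝ K) (w v : Fin d → ℝ) (M0 : ℝ)
    (hM0 : 0 < M0) (hw : ∀ s : ℝ, 0 ≤ s → s ≤ 1 → ∃ k ∈ K, s • w = M0 • k + v)
    (b : ℝ) (hb : 0 ≤ b) (m : ℝ) (hm : 0 < m) (u : Fin d → ℝ) (A : Set (Fin d → ℝ))
    (hA : A ⊆ (fun y => m • y + u) '' K) :
    seg A (b • w) ⊆ (fun y => (m + b * M0) • y + (u + b • v)) '' K := by
  rintro _ ⟨z, hz, s, hs, rfl⟩
  obtain ⟨y, hy, rfl⟩ := hA hz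
  obtain ⟨k, hk, hk2⟩ := hw s hs.1 hs.2
  have hmb : 0 < m + b * M0 := by positivity
  refine ⟨(m / (m + b * M0)) • y + (b * M0 / (m + b * M0)) • k,
    hK hy hk (by positivity) (by positivity) (by field_simp), ?_⟩
  show (m + b * M0) • ((m / (m + b * M0)) • y + (b * M0 / (m + b * M0)) • k) + (u + b • v) =
    m • y + u + s • b • w
  rw [smul_comm s b w, hk2, smul_add, smul_smul, smul_smul, mul_div_cancel₀ _ hmb.ne',
    mul_div_cancel₀ _ hmb.ne']
  module

theorem S_seg3_proof : S_seg3 := by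
  intro K hK w
  obtain ⟨P0, a0, b0, c0, d0⟩ := lemW (w 0)
  obtain ⟨P1, a1, b1, c1, d1⟩ := lemW (w 1)
  obtain ⟨P2, a2, b2, c2, d2⟩ := lemW (w 2)
  obtain ⟨p, hp⟩ := hK.int
  obtain ⟨r, hr, hball⟩ := Metric.nhds_basis_closedBall.mem_iff.1 (mem_interior_iff_mem_nhds.1 hp)
  set M0 : ℝ := (‖w 0‖ + ‖w 1‖ + ‖w 2‖ + 1) / r with hM0d
  have hM0 : 0 < M0 := by positivity
  have hMr : M0 * r = ‖w 0‖ + ‖w 1‖ + ‖w 2‖ + 1 := by rw [hM0d]; field_simp
  have hkey : ∀ x : Fin 3 → ℝ, ‖x‖ ≤ ‖w 0‖ + ‖w 1‖ + ‖w 2‖ + 1 → ∀ s : ℝ, 0 ≤ s → s ≤ 1 →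
      ∃ k ∈ K, s • x = M0 • k + -(M0 • p) := by
    intro x hx s hs0 hs1
    refine ⟨p + (s / M0) • x, hball ?_, ?_⟩
    · rw [mem_closedBall_iff_norm, add_sub_cancel_left, norm_smul, Real.norm_eq_abs,
        abs_of_nonneg (by positivity), div_mul_eq_mul_div, div_le_iff₀ hM0, mul_comm r, hMr]
      nlinarith [norm_nonneg x]
    · rw [smul_add, smul_smul, mul_div_cancel₀ _ hM0.ne']
      module
  have n0 := norm_nonneg (w 0)
  have n1 := norm_nonneg (w 1)
  have n2 := norm_nonneg (w 2)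
  refine ⟨(2 * M0 + M0 ^ 2) * P1 K + (4 * M0 + 4 * M0 ^ 2) * P2 K, ?_⟩
  intro b hb0 hb1
  have e0 := a0 K hK.comp hK.conv 1 zero_le_one
  have e1 := a1 K hK.comp hK.conv 1 zero_le_one
  have e2 := a2 K hK.comp hK.conv 1 zero_le_one
  rw [one_smul, one_mul] at e0 e1 e2
  set K1 := seg K (b • w 0) with hK1
  set K2 := seg K1 (b • w 1) with hK2
  have k1c : IsCompact K1 := isCompact_seg hK.comp _
  have k1x : Convex ℝ K1 := convex_seg hK.conv _
  have k2c : IsCompact K2 := isCompact_seg k1c _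
  have k2x : Convex ℝ K2 := convex_seg k1x _
  have s1 : K1 ⊆ (fun y => (1 + b * M0) • y + (0 + b • (-(M0 • p)))) '' K := by
    refine lem_step hK.conv (w 0) (-(M0 • p)) M0 hM0 (hkey (w 0) (by linarith)) b hb0 1 one_pos 0 K ?_
    intro x hx
    exact ⟨x, hx, by simp⟩
  have s2 := lem_step hK.conv (w 1) (-(M0 • p)) M0 hM0 (hkey (w 1) (by linarith)) b hb0
    (1 + b * M0) (by positivity) _ K1 s1
  have t1 : P1 K1 ≤ (1 + b * M0) ^ 2 * P1 K := by
    have := b1 _ _ (hK.comp.image (by fun_prop)) s1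
    rwa [c1 K _ (by positivity)] at this
  have t2 : P2 K2 ≤ (1 + b * M0 + b * M0) ^ 2 * P2 K := by
    have := b2 _ _ (hK.comp.image (by fun_prop)) s2
    rwa [c2 K _ (by positivity)] at this
  rw [a2 K2 k2c k2x b hb0, hK2, a1 K1 k1c k1x b hb0, hK1, a0 K hK.comp hK.conv b hb0, ← hK1, ← hK2,
    e0, e1, e2]
  have q1 := mul_le_mul_of_nonneg_left t1 hb0
  have q2 := mul_le_mul_of_nonneg_left t2 hb0
  have r1 : 0 ≤ b ^ 2 * (1 - b) * (M0 ^ 2 * P1 K) := by
    have := d1 K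
    have : 0 ≤ 1 - b := by linarith
    positivity
  have r2 : 0 ≤ b ^ 2 * (1 - b) * (M0 ^ 2 * P2 K) := by
    have := d2 K
    have : 0 ≤ 1 - b := by linarith
    positivity
  nlinarith [q1, q2, r1, r2]

end Pool.Agent.H629R2.HT
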