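import Pool.Agent.H629R2.HT.Stubs

/-!
# Project HT3, task SIMP: the standard simplex, its difference body and its polar
-/

set_option autoImplicit false

namespace Pool.Agent.H629R2.HT

open MeasureTheory Matrix
open scoped ENNReal

/-- volume of the open simplex (proof of Pool.Agent.VP.JA1) -/
theorem vol_simplex_aux (n : ℕ) : ∀ r : ℝ, 0 < r →
    volume {c : Fin n → ℝ | (∀ i, 0 < c i) ∧ ∑ i, c i < r} =
      ENNReal.ofReal (r ^ n / (n.factorial : ℝ)) := by
  induction n with
  | zero =>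
    intro r hr
    have : {c : Fin 0 → ℝ | (∀ i, 0 < c i) ∧ ∑ i, c i < r} = Set.univ := by
      ext c; simp [hr]
    rw [this]
    simp [MeasureTheory.Measure.volume_pi_eq_dirac (0 : Fin 0 → ℝ)]
  | succ n ih =>
    intro r hr
    let T : Set (ℝ × (Fin n → ℝ)) := {q | 0 < q.1 ∧ (∀ i, 0 < q.2 i) ∧ q.1 + ∑ i, q.2 i < r}
    have hT : MeasurableSet T := by
      have h1 : IsOpen T := by
        have e1 : T = {q | 0 < q.1} ∩ (⋂ i, {q : ℝ × (Fin n → ℝ) | 0 < q.2 i}) ∩
            {q | q.1 + ∑ i, q.2 i < r} := by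
          ext q; simp [T, and_assoc]
        rw [e1]
        refine IsOpen.inter (IsOpen.inter ?_ ?_) ?_
        · exact isOpen_lt continuous_const continuous_fst
        · refine isOpen_iInter_of_finite fun i => ?_
          exact isOpen_lt continuous_const ((continuous_apply i).comp continuous_snd)
        · refine isOpen_lt ?_ continuous_const
          fun_prop
      exact h1.measurableSet
    have hmp := MeasureTheory.volume_preserving_piFinSuccAbove (fun _ : Fin (n + 1) => ℝ) 0
    have hpre : {c : Fin (n + 1) → ℝ | (∀ i, 0 < c i) ∧ ∑ i, c i < r} =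
        (MeasurableEquiv.piFinSuccAbove (fun _ : Fin (n + 1) => ℝ) 0) ⁻¹' T := by
      ext c
      simp only [Set.mem_ofPred_eq, Set.mem_preimage, T, MeasurableEquiv.piFinSuccAbove_apply,
        Fin.insertNthEquiv_zero]
      rw [Fin.forall_fin_succ, Fin.sum_univ_succ, and_assoc]
      rfl
    rw [hpre, hmp.measure_preimage hT.nullMeasurableSet]
    rw [Measure.volume_eq_prod, Measure.prod_apply hT]
    have hsec : ∀ t : ℝ, volume (Prod.mk t ⁻¹' T) =
        (Set.Ioo 0 r).indicator (fun t => ENNReal.ofReal ((r - t) ^ n / (n.factorial : ℝ))) t := by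
      intro t
      by_cases ht : t ∈ Set.Ioo 0 r
      · rw [Set.indicator_of_mem ht, ← ih (r - t) (by linarith [ht.2])]
        congr 1
        ext c
        simp only [Set.mem_preimage, T, Set.mem_ofPred_eq]
        constructor
        · rintro ⟨_, h2, h3⟩
          exact ⟨h2, by linarith⟩
        · rintro ⟨h2, h3⟩
          exact ⟨ht.1, h2, by linarith⟩
      · rw [Set.indicator_of_notMem ht]
        have : Prod.mk t ⁻¹' T = ∅ := by
          ext c
          simp only [Set.mem_preimage, T, Set.mem_ofPred_eq, Set.mem_empty_iff_false, iff_false]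
          rintro ⟨h1, h2, h3⟩
          apply ht
          refine ⟨h1, ?_⟩
          have : 0 ≤ ∑ i, c i := Finset.sum_nonneg fun i _ => (h2 i).le
          linarith
        rw [this, measure_empty]
    simp_rw [hsec]
    rw [lintegral_indicator measurableSet_Ioo]
    have hint : IntervalIntegrable (fun t : ℝ => (r - t) ^ n / (n.factorial : ℝ)) volume 0 r := by
      apply Continuous.intervalIntegrable
      fun_prop
    have hIoc : IntegrableOn (fun t : ℝ => (r - t) ^ n / (n.factorial : ℝ)) (Set.Ioo 0 r) volume :=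
      ((intervalIntegrable_iff_integrableOn_Ioo_of_le hr.le).1 hint)
    rw [← ofReal_integral_eq_lintegral_ofReal hIoc]
    · congr 1
      rw [← integral_Ioc_eq_integral_Ioo, ← intervalIntegral.integral_of_le hr.le]
      have : ∫ t in (0:ℝ)..r, (r - t) ^ n / (n.factorial : ℝ) = (∫ t in (0:ℝ)..r, t ^ n) / (n.factorial : ℝ) := by
        rw [intervalIntegral.integral_div]
        congr 1
        have := intervalIntegral.integral_comp_sub_left (fun t : ℝ => t ^ n) r (a := 0) (b := r)
        rw [this]; simp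
      rw [this, integral_pow, Nat.factorial_succ]
      push_cast
      have h1 : (n.factorial : ℝ) ≠ 0 := by exact_mod_cast n.factorial_ne_zero
      have h2 : (n : ℝ) + 1 ≠ 0 := by positivity
      field_simp
      simp
    · rw [Filter.EventuallyLE, ae_restrict_iff' measurableSet_Ioo]
      refine Filter.Eventually.of_forall fun t ht => ?_
      simp only [Pi.zero_apply]
      have : 0 ≤ r - t := by linarith [ht.2]
      positivity


/-! ### the simplex itself -/

theorem openSx_subset : {c : Fin 3 → ℝ | (∀ i, 0 < c i) ∧ ∑ i, c i < 1} ⊆ Sx :=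
  fun _ hc => ⟨fun i => (hc.1 i).le, hc.2.le⟩

theorem isOpen_openSx : IsOpen {c : Fin 3 → ℝ | (∀ i, 0 < c i) ∧ ∑ i, c i < 1} := by
  have e1 : {c : Fin 3 → ℝ | (∀ i, 0 < c i) ∧ ∑ i, c i < 1} =
      (⋂ i, {c : Fin 3 → ℝ | 0 < c i}) ∩ {c | ∑ i, c i < 1} := by
    ext q; simp
  rw [e1]
  refine IsOpen.inter ?_ ?_
  · exact isOpen_iInter_of_finite fun i => isOpen_lt continuous_const (continuous_apply i)
  · exact isOpen_lt (by fun_prop) continuous_const

theorem Sx_eq : Sx = (⋂ i, {c : Fin 3 → ℝ | 0 ≤ c i}) ∩ {c | ∑ i, c i ≤ 1} := by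
  ext q; simp [Sx]

theorem isClosed_Sx : IsClosed Sx := by
  rw [Sx_eq]
  refine IsClosed.inter ?_ ?_
  · exact isClosed_iInter fun i => isClosed_le continuous_const (continuous_apply i)
  · exact isClosed_le (by fun_prop) continuous_const

theorem Sx_subset_Icc : Sx ⊆ Set.Icc (0 : Fin 3 → ℝ) 1 := by
  intro c hc
  refine ⟨fun i => hc.1 i, fun i => ?_⟩
  have : c i ≤ ∑ j, c j := Finset.single_le_sum (fun j _ => hc.1 j) (Finset.mem_univ i)
  exact this.trans hc.2

theorem CB_Sx : CB Sx := by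
  refine ⟨?_, ?_, ?_⟩
  · exact isCompact_Icc.of_isClosed_subset isClosed_Sx Sx_subset_Icc
  · intro x hx y hy a b ha hb hab
    refine ⟨fun i => ?_, ?_⟩
    · have h1 := hx.1 i
      have h2 := hy.1 i
      simp only [Pi.add_apply, Pi.smul_apply, smul_eq_mul]
      positivity
    · simp only [Pi.add_apply, Pi.smul_apply, smul_eq_mul]
      rw [Finset.sum_add_distrib, ← Finset.mul_sum, ← Finset.mul_sum]
      have h1 := mul_le_mul_of_nonneg_left hx.2 ha
      have h2 := mul_le_mul_of_nonneg_left hy.2 hb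
      linarith
  · refine ⟨fun _ => 1 / 4, ?_⟩
    apply interior_maximal openSx_subset isOpen_openSx
    refine ⟨fun i => by norm_num, ?_⟩
    norm_num

theorem vol_Sx_le (δ : ℝ) (hδ : 0 < δ) : volume Sx ≤ ENNReal.ofReal ((1 + 4 * δ) ^ 3 / 6) := by
  have h1 : volume ((fun x : Fin 3 → ℝ => (fun _ => δ) + x) ⁻¹'
      {c : Fin 3 → ℝ | (∀ i, 0 < c i) ∧ ∑ i, c i < 1 + 4 * δ}) =
      ENNReal.ofReal ((1 + 4 * δ) ^ 3 / (Nat.factorial 3 : ℝ)) := by
    rw [measure_preimage_add, vol_simplex_aux 3 _ (by linarith)]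
  have h6 : ((Nat.factorial 3 : ℕ) : ℝ) = 6 := by norm_num [Nat.factorial]
  rw [h6] at h1
  rw [← h1]
  apply measure_mono
  intro x hx
  refine ⟨fun i => ?_, ?_⟩
  · have := hx.1 i
    simp only [Pi.add_apply]
    linarith
  · have := hx.2
    simp only [Pi.add_apply]
    rw [Finset.sum_add_distrib]
    simp only [Finset.sum_const, Finset.card_univ, Fintype.card_fin, nsmul_eq_mul]
    push_cast
    linarith

theorem vol_Sx : volume Sx = ENNReal.ofReal (1 / 6) := by
  apply le_antisymm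
  · have h2 : Filter.Tendsto (fun δ : ℝ => ENNReal.ofReal ((1 + 4 * δ) ^ 3 / 6))
        (nhdsWithin 0 (Set.Ioi 0)) (nhds (ENNReal.ofReal ((1 + 4 * 0) ^ 3 / 6))) := by
      apply Filter.Tendsto.mono_left _ nhdsWithin_le_nhds
      apply (ENNReal.continuous_ofReal.comp (by fun_prop : Continuous fun δ : ℝ =>
        (1 + 4 * δ) ^ 3 / 6)).tendsto
    have h3 : ((1 : ℝ) + 4 * 0) ^ 3 / 6 = 1 / 6 := by norm_num
    rw [h3] at h2
    refine ge_of_tendsto h2 ?_
    filter_upwards [self_mem_nhdsWithin] with δ hδ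
    exact vol_Sx_le δ hδ
  · have h1 := vol_simplex_aux 3 1 one_pos
    have h6 : ((Nat.factorial 3 : ℕ) : ℝ) = 6 := by norm_num [Nat.factorial]
    rw [h6, one_pow] at h1
    rw [← h1]
    exact measure_mono openSx_subset

/-! ### the difference body -/

/-- the pieces of the difference body -/
def Qs (σ : Fin 3 → Bool) : Set (Fin 3 → ℝ) :=
  {x | (∀ i, 0 < (if σ i then x i else -x i)) ∧ ∑ i, (if σ i then x i else 0) < 1 ∧
    ∑ i, (if σ i then 0 else -x i) < 1}

theorem isOpen_Qs (σ : Fin 3 → Bool) : IsOpen (Qs σ) := by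
  have e1 : Qs σ = (⋂ i, {x : Fin 3 → ℝ | 0 < (if σ i then x i else -x i)}) ∩
      ({x : Fin 3 → ℝ | ∑ i, (if σ i then x i else 0) < 1} ∩
        {x : Fin 3 → ℝ | ∑ i, (if σ i then 0 else -x i) < 1}) := by
    ext q; simp [Qs]
  rw [e1]
  refine IsOpen.inter ?_ (IsOpen.inter ?_ ?_)
  · refine isOpen_iInter_of_finite fun i => ?_
    cases σ i
    · have : IsOpen {x : Fin 3 → ℝ | x i < 0} := isOpen_lt (continuous_apply i) continuous_const
      simpa using this
    · have : IsOpen {x : Fin 3 → ℝ | 0 < x i} := isOpen_lt continuous_const (continuous_apply i)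
      simpa using this
  · refine isOpen_lt (continuous_finsetSum _ fun i _ => ?_) continuous_const
    cases σ i
    · simpa using continuous_const
    · simpa using continuous_apply i
  · refine isOpen_lt (continuous_finsetSum _ fun i _ => ?_) continuous_const
    cases σ i
    · have : Continuous fun x : Fin 3 → ℝ => -x i := (continuous_apply i).neg
      simpa using this
    · simpa using continuous_const

theorem Qs_subset (σ : Fin 3 → Bool) : Qs σ ⊆ df Sx := by
  intro x hx
  obtain ⟨h1, h2, h3⟩ := hx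
  refine ⟨fun i => if σ i then x i else 0, ⟨fun i => ?_, h2.le⟩,
    fun i => if σ i then 0 else -x i, ⟨fun i => ?_, h3.le⟩, ?_⟩
  · have := h1 i
    by_cases hi : σ i
    · simp only [hi, if_true] at this ⊢; exact this.le
    · simp [hi]
  · have := h1 i
    by_cases hi : σ i
    · simp [hi]
    · simp only [hi] at this ⊢; simpa using this.le
  · ext i
    by_cases hi : σ i <;> simp [hi]

theorem Qs_disjoint {σ τ : Fin 3 → Bool} (h : σ ≠ τ) : Disjoint (Qs σ) (Qs τ) := by
  rw [Set.disjoint_left]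
  intro x hx hy
  apply h
  ext i
  have h1 := hx.1 i
  have h2 := hy.1 i
  by_cases hs : σ i = true
  · by_cases ht : τ i = true
    · rw [hs, ht]
    · rw [if_pos hs] at h1
      rw [if_neg ht] at h2
      linarith
  · by_cases ht : τ i = true
    · rw [if_neg hs] at h1
      rw [if_pos ht] at h2
      linarith
    · simp only [Bool.not_eq_true] at hs ht
      rw [hs, ht]

/-- index set of the pieces -/
abbrev Ix := Bool ⊕ (Fin 3 × Bool)

/-- the sign patterns -/
def sp : Ix → (Fin 3 → Bool)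
  | Sum.inl b => fun _ => b
  | Sum.inr q => Function.update (fun _ => !q.2) q.1 q.2

theorem sp_inj : Function.Injective sp := by
  intro a b
  revert a b
  decide

theorem vol_neg_simplex (n : ℕ) :
    volume {c : Fin n → ℝ | (∀ i, 0 < -c i) ∧ ∑ i, -c i < 1} =
      ENNReal.ofReal (1 / (n.factorial : ℝ)) := by
  have h1 := vol_simplex_aux n 1 one_pos
  rw [one_pow] at h1
  rw [← h1, ← Measure.measure_preimage_neg volume {c : Fin n → ℝ | (∀ i, 0 < c i) ∧ ∑ i, c i < 1}]
  rfl

theorem vol_Qs_inl (b : Bool) : volume (Qs (sp (Sum.inl b))) = ENNReal.ofReal (1 / 6) := by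
  have h6 : ((Nat.factorial 3 : ℕ) : ℝ) = 6 := by norm_num [Nat.factorial]
  cases b
  · have : Qs (sp (Sum.inl false)) = {c : Fin 3 → ℝ | (∀ i, 0 < -c i) ∧ ∑ i, -c i < 1} := by
      ext x
      simp [Qs, sp]
    rw [this, vol_neg_simplex, h6]
  · have : Qs (sp (Sum.inl true)) = {c : Fin 3 → ℝ | (∀ i, 0 < c i) ∧ ∑ i, c i < 1} := by
      ext x
      simp [Qs, sp]
    rw [this, vol_simplex_aux 3 1 one_pos, h6, one_pow]

theorem vol_Qs_inr (i : Fin 3) (b : Bool) :
    volume (Qs (sp (Sum.inr (i, b)))) = ENNReal.ofReal (1 / 2) := by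
  have h2 : ((Nat.factorial 2 : ℕ) : ℝ) = 2 := by norm_num [Nat.factorial]
  have hmp := MeasureTheory.volume_preserving_piFinSuccAbove (fun _ : Fin (2 + 1) => ℝ) i
  have hsi : sp (Sum.inr (i, b)) i = b := by simp [sp]
  have hsk : ∀ k : Fin 2, sp (Sum.inr (i, b)) (i.succAbove k) = !b := fun k => by
    simp [sp, Function.update_of_ne (Fin.succAbove_ne i k)]
  cases b
  · have hpre : Qs (sp (Sum.inr (i, false))) =
        (MeasurableEquiv.piFinSuccAbove (fun _ : Fin (2 + 1) => ℝ) i) ⁻¹'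
          (Set.Ioo (-1) 0 ×ˢ {c : Fin 2 → ℝ | (∀ i, 0 < c i) ∧ ∑ i, c i < 1}) := by
      ext x
      simp only [Qs, Set.mem_ofPred_eq, Set.mem_preimage, Set.mem_prod, Set.mem_Ioo,
        MeasurableEquiv.piFinSuccAbove_apply, Fin.insertNthEquiv_symm_apply]
      rw [Fin.forall_iff_succAbove i, Fin.sum_univ_succAbove _ i, Fin.sum_univ_succAbove _ i]
      simp only [hsi, hsk, Fin.removeNth]
      simp
      constructor
      · rintro ⟨⟨h1, h2⟩, h3, h4⟩
        exact ⟨⟨by linarith, h1⟩, h2, h3⟩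
      · rintro ⟨⟨h1, h2⟩, h3, h4⟩
        exact ⟨⟨h2, h3⟩, h4, by linarith⟩
    rw [hpre, hmp.measure_preimage_equiv, Measure.volume_eq_prod, Measure.prod_prod,
      vol_simplex_aux 2 1 one_pos, h2, Real.volume_Ioo]
    norm_num
  · have hpre : Qs (sp (Sum.inr (i, true))) =
        (MeasurableEquiv.piFinSuccAbove (fun _ : Fin (2 + 1) => ℝ) i) ⁻¹'
          (Set.Ioo 0 1 ×ˢ {c : Fin 2 → ℝ | (∀ i, 0 < -c i) ∧ ∑ i, -c i < 1}) := by
      ext x
      simp only [Qs, Set.mem_ofPred_eq, Set.mem_preimage, Set.mem_prod, Set.mem_Ioo,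
        MeasurableEquiv.piFinSuccAbove_apply, Fin.insertNthEquiv_symm_apply]
      rw [Fin.forall_iff_succAbove i, Fin.sum_univ_succAbove _ i, Fin.sum_univ_succAbove _ i]
      simp only [hsi, hsk, Fin.removeNth]
      simp
      constructor
      · rintro ⟨⟨h1, h2⟩, h3, h4⟩
        exact ⟨⟨h1, by linarith⟩, h2, h4⟩
      · rintro ⟨⟨h1, h2⟩, h3, h4⟩
        exact ⟨⟨h1, h3⟩, by linarith, h4⟩
    rw [hpre, hmp.measure_preimage_equiv, Measure.volume_eq_prod, Measure.prod_prod,
      vol_neg_simplex, h2, Real.volume_Ioo]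
    norm_num

theorem isCompact_df {K : Set (Fin 3 → ℝ)} (hK : IsCompact K) : IsCompact (df K) := by
  have : df K = (fun p : (Fin 3 → ℝ) × (Fin 3 → ℝ) => p.1 - p.2) '' (K ×ˢ K) := by
    ext x
    simp only [df, Set.mem_ofPred_eq, Set.mem_image, Set.mem_prod, Prod.exists]
    constructor
    · rintro ⟨y, hy, z, hz, rfl⟩
      exact ⟨y, z, ⟨hy, hz⟩, rfl⟩
    · rintro ⟨y, z, ⟨hy, hz⟩, rfl⟩
      exact ⟨y, hy, z, hz, rfl⟩
  rw [this]
  exact (hK.prod hK).image (by fun_prop)

theorem le_V_df : 10 / 3 ≤ V (df Sx) := by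
  have h1 : volume (⋃ a : Ix, Qs (sp a)) = ∑' a : Ix, volume (Qs (sp a)) :=
    measure_iUnion (fun a b hab => Qs_disjoint (sp_inj.ne hab))
      (fun a => (isOpen_Qs _).measurableSet)
  rw [tsum_fintype, Fintype.sum_sum_type, Fintype.sum_prod_type] at h1
  simp only [vol_Qs_inl, vol_Qs_inr] at h1
  have h2 : (⋃ a : Ix, Qs (sp a)) ⊆ df Sx := Set.iUnion_subset fun a => Qs_subset _
  have h3 := measure_mono (μ := volume) h2
  rw [h1] at h3
  have hfin : volume (df Sx) ≠ ⊤ := (isCompact_df CB_Sx.comp).measure_lt_top.ne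
  have h4 := ENNReal.toReal_mono hfin h3
  unfold V
  refine le_trans (le_of_eq ?_) h4
  simp only [Finset.sum_const, Finset.card_univ, Fintype.card_bool, Fintype.card_fin,
    nsmul_eq_mul]
  rw [ENNReal.toReal_add (by finiteness) (by finiteness)]
  simp only [ENNReal.toReal_mul, ENNReal.toReal_natCast]
  rw [ENNReal.toReal_ofReal (by norm_num), ENNReal.toReal_ofReal (by norm_num)]
  norm_num

/-! ### the polar of the difference body -/

theorem vol_img (A : Matrix (Fin 3) (Fin 3) ℝ) (h : |A.det| = 1) :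
    volume ((Matrix.toLin' A) '' (Set.Icc (0 : Fin 3 → ℝ) 1)) = 1 := by
  rw [Measure.addHaar_image_linearMap, LinearMap.det_toLin', h, Real.volume_Icc_pi]
  simp

theorem po_bounds {y : Fin 3 → ℝ} (hy : y ∈ po (df Sx)) :
    (∀ i, y i ≤ 1) ∧ (∀ i, -1 ≤ y i) ∧ ∀ i j, y i - y j ≤ 1 := by
  have h0 : (0 : Fin 3 → ℝ) ∈ Sx := ⟨fun i => le_rfl, by simp⟩
  have he : ∀ i : Fin 3, (Pi.single i 1 : Fin 3 → ℝ) ∈ Sx := by
    intro i
    refine ⟨fun j => ?_, by simp⟩
    by_cases h : j = i
    · subst h; simp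
    · simp [h]
  refine ⟨fun i => ?_, fun i => ?_, fun i j => ?_⟩
  · have := hy (Pi.single i 1) ⟨_, he i, 0, h0, by simp⟩
    simpa using this
  · have := hy (-Pi.single i 1) ⟨0, h0, _, he i, by simp⟩
    simp at this
    linarith
  · have := hy (Pi.single i 1 - Pi.single j 1) ⟨_, he i, _, he j, rfl⟩
    simpa [sub_dotProduct] using this

theorem po_cover : po (df Sx) ⊆ Set.Icc (0 : Fin 3 → ℝ) 1 ∪
    ((Matrix.toLin' !![-1, 0, 0; -1, 1, 0; -1, 0, 1]) '' (Set.Icc (0 : Fin 3 → ℝ) 1) ∪
    ((Matrix.toLin' !![1, -1, 0; 0, -1, 0; 0, -1, 1]) '' (Set.Icc (0 : Fin 3 → ℝ) 1) ∪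
    ((Matrix.toLin' !![1, 0, -1; 0, 1, -1; 0, 0, -1]) '' (Set.Icc (0 : Fin 3 → ℝ) 1)))) := by
  intro y hy
  obtain ⟨h1, h2, h3⟩ := po_bounds hy
  by_cases hp : 0 ≤ y 0 ∧ 0 ≤ y 1 ∧ 0 ≤ y 2
  · left
    refine ⟨fun i => ?_, fun i => ?_⟩
    · fin_cases i
      · exact hp.1
      · exact hp.2.1
      · exact hp.2.2
    · exact h1 i
  · right
    have c01 := h3 0 1
    have c02 := h3 0 2
    have c10 := h3 1 0
    have c12 := h3 1 2
    have c20 := h3 2 0
    have c21 := h3 2 1
    have b0 := h2 0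
    have b1 := h2 1
    have b2 := h2 2
    by_cases m0 : y 0 ≤ y 1 ∧ y 0 ≤ y 2
    · left
      have n0 : y 0 ≤ 0 := by
        by_contra hc
        push Not at hc
        exact hp ⟨hc.le, by linarith [m0.1], by linarith [m0.2]⟩
      refine ⟨![-y 0, y 1 - y 0, y 2 - y 0], ⟨fun i => ?_, fun i => ?_⟩, ?_⟩
      · fin_cases i <;> simp <;> linarith [m0.1, m0.2]
      · fin_cases i <;> simp <;> linarith [m0.1, m0.2]
      · ext i
        fin_cases i <;> simp [Matrix.toLin'_apply, Matrix.mulVec, dotProduct, Fin.sum_univ_three]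
    · by_cases m1 : y 1 ≤ y 0 ∧ y 1 ≤ y 2
      · right; left
        have n0 : y 1 ≤ 0 := by
          by_contra hc
          push Not at hc
          exact hp ⟨by linarith [m1.1], hc.le, by linarith [m1.2]⟩
        refine ⟨![y 0 - y 1, -y 1, y 2 - y 1], ⟨fun i => ?_, fun i => ?_⟩, ?_⟩
        · fin_cases i <;> simp <;> linarith [m1.1, m1.2]
        · fin_cases i <;> simp <;> linarith [m1.1, m1.2]
        · ext i
          fin_cases i <;> simp [Matrix.toLin'_apply, Matrix.mulVec, dotProduct, Fin.sum_univ_three]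
      · right; right
        have m2 : y 2 ≤ y 0 ∧ y 2 ≤ y 1 := by
          rcases le_total (y 0) (y 1) with h | h
          · have : ¬ y 0 ≤ y 2 := fun h' => m0 ⟨h, h'⟩
            constructor <;> linarith
          · have : ¬ y 1 ≤ y 2 := fun h' => m1 ⟨h, h'⟩
            constructor <;> linarith
        have n0 : y 2 ≤ 0 := by
          by_contra hc
          push Not at hc
          exact hp ⟨by linarith [m2.1], by linarith [m2.2], hc.le⟩
        refine ⟨![y 0 - y 2, y 1 - y 2, -y 2], ⟨fun i => ?_, fun i => ?_⟩, ?_⟩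
        · fin_cases i <;> simp <;> linarith [m2.1, m2.2]
        · fin_cases i <;> simp <;> linarith [m2.1, m2.2]
        · ext i
          fin_cases i <;> simp [Matrix.toLin'_apply, Matrix.mulVec, dotProduct, Fin.sum_univ_three]

theorem V_po_le : V (po (df Sx)) ≤ 4 := by
  have h1 := measure_mono (μ := volume) po_cover
  have hI : volume (Set.Icc (0 : Fin 3 → ℝ) 1) = 1 := by rw [Real.volume_Icc_pi]; simp
  have hd0 : |(!![-1, 0, 0; -1, 1, 0; -1, 0, 1] : Matrix (Fin 3) (Fin 3) ℝ).det| = 1 := by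
    rw [Matrix.det_fin_three]; simp
  have hd1 : |(!![1, -1, 0; 0, -1, 0; 0, -1, 1] : Matrix (Fin 3) (Fin 3) ℝ).det| = 1 := by
    rw [Matrix.det_fin_three]; simp
  have hd2 : |(!![1, 0, -1; 0, 1, -1; 0, 0, -1] : Matrix (Fin 3) (Fin 3) ℝ).det| = 1 := by
    rw [Matrix.det_fin_three]; simp
  have h2 : volume (po (df Sx)) ≤ 4 := by
    refine h1.trans ((measure_union_le _ _).trans ?_)
    refine (add_le_add le_rfl ((measure_union_le _ _).trans
      (add_le_add le_rfl (measure_union_le _ _)))).trans ?_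
    rw [hI, vol_img _ hd0, vol_img _ hd1, vol_img _ hd2]
    norm_num
  unfold V
  have h3 := ENNReal.toReal_mono (by norm_num) h2
  simpa using h3

theorem S_simp_proof : S_simp := by
  refine ⟨CB_Sx, ?_, le_V_df, V_po_le⟩
  unfold V
  rw [vol_Sx, ENNReal.toReal_ofReal (by norm_num)]

end Pool.Agent.H629R2.HT
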