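import Pool.Agent.H629R2.HT.Defs

/-!
# Project HT3: the statements of the tasks (as propositions `S_...`)
-/

set_option autoImplicit false

namespace Pool.Agent.H629R2.HT

open MeasureTheory Set Matrix Pool.Agent.H629R2.Tr

/-- GRAD: the logarithmic Laplace transform `ψ a = log ∫_K exp (a · x) dx` of a convex body, its
gradient `g` and its Hessian `H`. -/
def S_grad : Prop := ∀ (n : ℕ) (K : Set (Fin n → ℝ)), CB K →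
  ∃ (ψ : (Fin n → ℝ) → ℝ) (g : (Fin n → ℝ) → (Fin n → ℝ))
    (H : (Fin n → ℝ) → Matrix (Fin n) (Fin n) ℝ),
    (∀ a, g a ∈ K) ∧
    (∀ a u, 0 ≤ u ⬝ᵥ (H a *ᵥ u)) ∧ (∀ a, (H a)ᵀ = H a) ∧
    Continuous H ∧
    (∀ a, HasFDerivAt g (LinearMap.toContinuousLinearMap (Matrix.toLin' (H a))) a) ∧
    (∀ a, HasFDerivAt ψ (LinearMap.toContinuousLinearMap (dotProductBilin ℝ ℝ (g a))) a) ∧
    (∀ a a', a ≠ a' → (a - a') ⬝ᵥ g a' < (a - a') ⬝ᵥ g a) ∧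
    (∀ ε : ℝ, 0 < ε → ∃ C : ℝ, ∀ a, ∀ x ∈ K, a ⬝ᵥ x ≤ ψ a + ε * ‖a‖ + C)

/-- POLY: Minkowski's theorem: the volume of `K + b L` is a polynomial in `b`. -/
def S_poly : Prop := ∀ K L : Set (Fin 3 → ℝ), CB K → CB L →
  ∃ c : Fin 4 → ℝ, ∀ b : ℝ, 0 ≤ b → V (ms K L b) = c 0 + c 1 * b + c 2 * b ^ 2 + c 3 * b ^ 3

/-- SEG3: the volume of `K + b ([0, w 0] + [0, w 1] + [0, w 2])` up to order two. -/
def S_seg3 : Prop := ∀ K : Set (Fin 3 → ℝ), CB K → ∀ w : Fin 3 → (Fin 3 → ℝ),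
  ∃ M : ℝ, ∀ b : ℝ, 0 ≤ b → b ≤ 1 →
    V (seg (seg (seg K (b • w 0)) (b • w 1)) (b • w 2)) ≤
      V K + b * ((V (seg K (w 0)) - V K) + (V (seg K (w 1)) - V K) + (V (seg K (w 2)) - V K)) +
        M * b ^ 2

/-- AUE: `-K` is contained in a translate of a parallelotope whose edges are chords of `K`. -/
def S_aue : Prop := ∀ K : Set (Fin 3 → ℝ), CB K →
  ∃ w : Fin 3 → (Fin 3 → ℝ), (∀ i, ∃ z ∈ K, z + w i ∈ K) ∧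
    ∃ c : Fin 3 → ℝ, ∀ y ∈ K, ∃ t : Fin 3 → ℝ, (∀ i, 0 ≤ t i ∧ t i ≤ 1) ∧
      -y = c + ∑ i, t i • w i

/-- NEG3: `-K` is contained in a translate of `3 K`. -/
def S_neg3 : Prop := ∀ K : Set (Fin 3 → ℝ), CB K →
  ∃ x : Fin 3 → ℝ, ∀ y ∈ K, ∃ z ∈ K, -y = x + (3 : ℝ) • z

/-- SIMP: the simplex. -/
def S_simp : Prop := CB Sx ∧ V Sx = 1 / 6 ∧ 10 / 3 ≤ V (df Sx) ∧ V (po (df Sx)) ≤ 4

/-- MAH: the symmetric Mahler inequality for `conv (K × {1} ∪ -K × {-1})`. -/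
def S_mah : Prop := ∀ K : Set (Fin 3 → ℝ), CB K → ∀ C : ℝ,
  (∀ b : ℝ, 0 ≤ b → b ≤ 1 → V (ms K (ng K) b) ≤ V K * (1 + b ^ 3) + C * (b + b ^ 2)) →
  8 / 3 ≤ V (po (df K)) * (V K + C / 3)

end Pool.Agent.H629R2.HT
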